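import Mathlib
import Pool.Agent.N754.MT.Main
import Pool.Agent.N131.SR.Small
import Pool.Agent.H159R3.NV.Wron
import Pool.Agent.H159R3.NV.Jensen

/-!
The analytic instance of the common form of the subspace theorem and of the second main theorem:
entire functions of moderate growth.
-/

set_option autoImplicit false
set_option linter.unusedSectionVars false

namespace Pool.Agent.W2helper42.RB

open MeasureTheory Set Filter Topology Metric Real ValueDistribution
open Asymptotics
open Pool.Agent.N131.SR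
open Pool.Agent.TH143.EL (codis_ev codis_of_ev)

variable {L : Filter ℝ} {τ : ℝ → ℝ}

/-- functions with small proximity function -/
def PS (L : Filter ℝ) (τ : ℝ → ℝ) (a : ℂ → ℂ) : Prop := Meromorphic a ∧ proximity a ⊤ =o[L] τ

section small

variable (H : Cmp L τ)
include H

theorem PS.mul {a b : ℂ → ℂ} (ha : PS L τ a) (hb : PS L τ b) : PS L τ fun z => a z * b z :=
  ⟨ha.1.mul hb.1, H.o_of_le (fun r _ => ⟨proximity_nonneg r, prox_mul ha.1 hb.1 r⟩)
    (ha.2.add hb.2)⟩

theorem PS.add {a b : ℂ → ℂ} (ha : PS L τ a) (hb : PS L τ b) : PS L τ fun z => a z + b z :=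
  ⟨ha.1.add hb.1, H.o_of_le (fun r _ => ⟨proximity_nonneg r, prox_add ha.1 hb.1 r⟩)
    ((ha.2.add hb.2).add (H.const (log 2)))⟩

theorem PS.const (c : ℂ) : PS L τ fun _ => c := by
  refine ⟨Meromorphic.const c, ?_⟩
  have h1 : proximity (fun _ : ℂ => c) ⊤ = fun _ => log⁺ ‖c‖ := by
    funext r
    rw [proximity_top]
    exact circleAverage_const _ _ _
  rw [h1]
  exact H.const _

theorem PS.sum {ι : Type*} (s : Finset ι) {a : ι → ℂ → ℂ} (ha : ∀ i ∈ s, PS L τ (a i)) :
    PS L τ fun z => ∑ i ∈ s, a i z := by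
  classical
  induction s using Finset.induction_on with
  | empty => simpa using PS.const H 0
  | insert i s hi ih =>
    simp only [Finset.sum_insert hi]
    exact (ha i (Finset.mem_insert_self i s)).add H
      (ih fun j hj => ha j (Finset.mem_insert_of_mem hj))

theorem PS.prod {ι : Type*} (s : Finset ι) {a : ι → ℂ → ℂ} (ha : ∀ i ∈ s, PS L τ (a i)) :
    PS L τ fun z => ∏ i ∈ s, a i z := by
  classical
  induction s using Finset.induction_on with
  | empty => simpa using PS.const H 1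
  | insert i s hi ih =>
    simp only [Finset.prod_insert hi]
    exact (ha i (Finset.mem_insert_self i s)).mul H
      (ih fun j hj => ha j (Finset.mem_insert_of_mem hj))

theorem PS.congr {a b : ℂ → ℂ} (ha : PS L τ a) (hb : Meromorphic b)
    (h : ∀ᶠ z in codiscrete ℂ, b z = a z) : PS L τ b := by
  refine ⟨hb, H.o_of_le (fun r hr => ⟨proximity_nonneg r, ?_⟩) ha.2⟩
  exact (proximity_congr_codiscrete h (by positivity)).le

theorem ps_ratio {f : ℂ → ℂ} (hO : OT L τ f) (k : ℕ) :
    OT L τ (iteratedDeriv k f) ∧ PS L τ fun z => iteratedDeriv k f z / f z := by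
  induction k with
  | zero =>
    rw [iteratedDeriv_zero]
    refine ⟨hO, hO.1.div hO.1, ?_⟩
    have h1 : proximity (fun z => f z / f z) ⊤ = fun _ => 0 := by
      funext r
      rw [proximity_top]
      have h2 : (fun z : ℂ => log⁺ ‖f z / f z‖) = fun _ => 0 := by
        funext z
        by_cases h : f z = 0
        · rw [h, div_zero, norm_zero]
          simp
        · rw [div_self h, norm_one]
          simp
      rw [h2]
      exact circleAverage_const _ _ _
    rw [h1]
    exact H.const 0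
  | succ k ih =>
    obtain ⟨h1, h2⟩ := ih
    rw [iteratedDeriv_succ]
    have h3 := h1.deriv H
    refine ⟨h3, ?_⟩
    have hm : Meromorphic fun z => deriv (iteratedDeriv k f) z / f z := h3.1.div hO.1
    rcases nz_or h1.1 with h4 | h4
    · have h5 : PS L τ (logDeriv (iteratedDeriv k f)) := ⟨h3.1.div h1.1, ld_o H h1⟩
      refine PS.congr H (h5.mul H h2) hm ?_
      filter_upwards [h4.ne h1.1] with z hz
      rw [logDeriv_apply]
      field_simp
    · have h5 : ∀ᶠ z in codiscrete ℂ, deriv (iteratedDeriv k f) z = 0 := by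
        apply codis_of_ev
        intro z
        have h6 : iteratedDeriv k f =ᶠ[𝓝[≠] z] fun _ => (0 : ℂ) := codis_ev h4 z
        have h7 := h6.nhdsNE_deriv
        filter_upwards [h7] with w hw
        rw [hw]
        simp
      refine PS.congr H (PS.const H 0) hm ?_
      filter_upwards [h5] with z hz
      rw [hz, zero_div]

end small

/-- Wronskian determinants -/
noncomputable def Wn {N : ℕ} (g : Fin N → ℂ → ℂ) (z : ℂ) : ℂ :=
  (Matrix.of fun b l : Fin N => iteratedDeriv l (g b) z).det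

theorem Wn_diff {N : ℕ} {g : Fin N → ℂ → ℂ} (hg : ∀ j, Differentiable ℂ (g j)) :
    Differentiable ℂ (Wn g) := by
  unfold Wn
  simp only [Matrix.det_apply]
  intro z
  apply DifferentiableAt.fun_sum
  intro σ _
  apply DifferentiableAt.const_smul
  apply DifferentiableAt.fun_finsetProd
  intro i _
  have h1 : ContDiff ℂ ⊤ (g (σ i)) := (hg (σ i)).contDiff
  exact (h1.differentiable_iteratedDeriv _ (by exact_mod_cast WithTop.coe_lt_top _)) z

/-- determinants of logarithmic derivatives -/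
noncomputable def Dn {N : ℕ} (g : Fin N → ℂ → ℂ) (z : ℂ) : ℂ :=
  (Matrix.of fun b l : Fin N => iteratedDeriv l (g b) z / g b z).det

theorem Wn_eq {N : ℕ} (g : Fin N → ℂ → ℂ) (z : ℂ) (hz : ∀ b, g b z ≠ 0) :
    Wn g z = (∏ b, g b z) * Dn g z := by
  unfold Wn Dn
  rw [← Matrix.det_mul_column]
  congr 1
  ext b l
  simp only [Matrix.of_apply]
  rw [mul_div_cancel₀ _ (hz b)]

theorem iter_comb {N : ℕ} {g : Fin N → ℂ → ℂ} (hg : ∀ j, Differentiable ℂ (g j))
    (c : Fin N → ℂ) (k : ℕ) (z : ℂ) :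
    iteratedDeriv k (fun z => ∑ j, c j * g j z) z = ∑ j, c j * iteratedDeriv k (g j) z := by
  induction k generalizing z with
  | zero => simp only [iteratedDeriv_zero]
  | succ k ih =>
    have h1 : iteratedDeriv k (fun z => ∑ j, c j * g j z) =
        fun z => ∑ j, c j * iteratedDeriv k (g j) z := funext ih
    rw [iteratedDeriv_succ, h1]
    have h2 : ∀ j, DifferentiableAt ℂ (iteratedDeriv k (g j)) z := by
      intro j
      have h3 : ContDiff ℂ ⊤ (g j) := (hg j).contDiff
      exact (h3.differentiable_iteratedDeriv _ (by exact_mod_cast WithTop.coe_lt_top _)) z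
    rw [deriv_fun_sum fun j _ => (h2 j).const_mul (c j)]
    refine Finset.sum_congr rfl fun j _ => ?_
    rw [deriv_const_mul _ (h2 j), iteratedDeriv_succ]

theorem Wn_comb {N : ℕ} {g g' : Fin N → ℂ → ℂ} (hg : ∀ j, Differentiable ℂ (g j))
    (M : Matrix (Fin N) (Fin N) ℂ) (h : ∀ b, g' b = fun z => ∑ j, M b j * g j z) (z : ℂ) :
    Wn g' z = M.det * Wn g z := by
  unfold Wn
  rw [← Matrix.det_mul]
  congr 1
  ext b l
  rw [Matrix.mul_apply]
  simp only [Matrix.of_apply]
  rw [h b, iter_comb hg]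

theorem ps_Dn (H : Cmp L τ) {N : ℕ} {g : Fin N → ℂ → ℂ} (hO : ∀ b, OT L τ (g b)) :
    PS L τ (Dn g) := by
  have h1 : Dn g = fun z => ∑ σ : Equiv.Perm (Fin N), ((Equiv.Perm.sign σ : ℤ) : ℂ) *
      ∏ i : Fin N, (iteratedDeriv (i : ℕ) (g (σ i)) z / g (σ i) z) := by
    funext z
    unfold Dn
    rw [Matrix.det_apply']
    rfl
  rw [h1]
  refine PS.sum H _ fun σ _ => (PS.const H _).mul H (PS.prod H _ fun i _ => ?_)
  exact (ps_ratio H (hO (σ i)) i).2

/-- entire functions with characteristic `O(τ)` -/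
def ES (H : Cmp L τ) : Subalgebra ℂ (ℂ → ℂ) where
  carrier := {f | Differentiable ℂ f ∧ OT L τ f}
  mul_mem' := by
    rintro f g ⟨h1, h2⟩ ⟨h3, h4⟩
    exact ⟨h1.mul h3, h2.mul H h4⟩
  add_mem' := by
    rintro f g ⟨h1, h2⟩ ⟨h3, h4⟩
    exact ⟨h1.add h3, h2.add H h4⟩
  algebraMap_mem' c := ⟨differentiable_const c, (sm_const H c).ot⟩

section dict

variable (H : Cmp L τ)

theorem ES.diff (f : ES H) : Differentiable ℂ (f : ℂ → ℂ) := f.2.1

theorem ES.ot (f : ES H) : OT L τ (f : ℂ → ℂ) := f.2.2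

instance : IsDomain (ES H) := by
  have h1 : NoZeroDivisors (ES H) := by
    constructor
    intro a b hab
    have h2 := Pool.Agent.H159R3.NV.ent_eq_zero_or (ES.diff H a) (ES.diff H b)
      (fun z => congrFun (congrArg Subtype.val hab) z)
    rcases h2 with h | h
    · exact Or.inl (Subtype.ext h)
    · exact Or.inr (Subtype.ext h)
  have h2 : Nontrivial (ES H) := by
    refine ⟨0, 1, fun h => ?_⟩
    have h3 := congrFun (congrArg Subtype.val h) 0
    exact zero_ne_one h3
  exact NoZeroDivisors.to_isDomain _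

theorem ES.ne (f : ES H) (hf : f ≠ 0) : ∀ᶠ z in codiscrete ℂ, (f : ℂ → ℂ) z ≠ 0 := by
  have h1 : ∃ z, (f : ℂ → ℂ) z ≠ 0 := by
    by_contra hcon
    push Not at hcon
    exact hf (Subtype.ext (funext hcon))
  obtain ⟨z, hz⟩ := h1
  have h2 := AnalyticOnNhd.preimage_zero_mem_codiscrete
    (fun z _ => (ES.diff H f).analyticAt z) hz
  exact h2

/-- the functions whose circle averages are small -/
def NegE (L : Filter ℝ) (τ : ℝ → ℝ) (f : ℂ → ℝ) : Prop :=
  ∀ ε : ℝ, 0 < ε → ∃ h : ℂ → ℝ, (∀ᶠ z in codiscrete ℂ, f z ≤ h z) ∧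
    (∀ r, CircleIntegrable h 0 r) ∧ ∀ᶠ r in L, circleAverage h 0 r ≤ ε * τ r

theorem negE_of {f h : ℂ → ℝ} (hτ : ∀ r, 0 ≤ τ r) (h1 : ∀ᶠ z in codiscrete ℂ, f z ≤ h z)
    (h2 : ∀ r, CircleIntegrable h 0 r) {t : ℝ → ℝ} (ht : t =o[L] τ)
    (h3 : ∀ᶠ r in L, circleAverage h 0 r ≤ t r) : NegE L τ f := by
  intro ε hε
  refine ⟨h, h1, h2, ?_⟩
  filter_upwards [h3, isLittleO_iff.1 ht hε] with r h4 h5
  have h6 := le_abs_self (t r)
  rw [Real.norm_eq_abs, Real.norm_eq_abs, abs_of_nonneg (hτ r)] at h5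
  linarith

theorem avg_norm (h : ℝ → ℝ) {r : ℝ} (hr : 0 ≤ r) :
    circleAverage (fun z : ℂ => h ‖z‖) 0 r = h r := by
  refine circleAverage_const_on_circle (fun z hz => ?_)
  rw [mem_sphere_zero_iff_norm, abs_of_nonneg hr] at hz
  rw [hz]

theorem ci_norm (h : ℝ → ℝ) (r : ℝ) : CircleIntegrable (fun z : ℂ => h ‖z‖) 0 r := by
  have h1 : CircleIntegrable (fun _ : ℂ => h |r|) 0 r := circleIntegrable_const _ _ _
  refine h1.congr_codiscreteWithin ?_
  filter_upwards [self_mem_codiscreteWithin (sphere (0 : ℂ) |r|)] with z hz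
  rw [mem_sphere_zero_iff_norm] at hz
  rw [hz]

theorem negE_mono {f g : ℂ → ℝ} (h : ∀ᶠ z in codiscrete ℂ, g z ≤ f z) (hf : NegE L τ f) :
    NegE L τ g := by
  intro ε hε
  obtain ⟨k, h1, h2, h3⟩ := hf ε hε
  refine ⟨k, ?_, h2, h3⟩
  filter_upwards [h, h1] with z a b
  exact a.trans b

theorem negE_add {f g : ℂ → ℝ} (hf : NegE L τ f) (hg : NegE L τ g) :
    NegE L τ fun z => f z + g z := by
  intro ε hε
  obtain ⟨k, h1, h2, h3⟩ := hf (ε / 2) (by positivity)
  obtain ⟨k', h1', h2', h3'⟩ := hg (ε / 2) (by positivity)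
  refine ⟨fun z => k z + k' z, ?_, fun r => (h2 r).add (h2' r), ?_⟩
  · filter_upwards [h1, h1'] with z a b
    exact add_le_add a b
  · filter_upwards [h3, h3'] with r a b
    rw [circleAverage_fun_add (h2 r) (h2' r)]
    linarith

theorem negE_smul (hτ : ∀ r, 0 ≤ τ r) {f : ℂ → ℝ} {c : ℝ} (hc : 0 ≤ c) (hf : NegE L τ f) :
    NegE L τ fun z => c * f z := by
  intro ε hε
  obtain ⟨k, h1, h2, h3⟩ := hf (ε / (c + 1)) (by positivity)
  refine ⟨fun z => c * k z, ?_, fun r => (h2 r).const_mul c, ?_⟩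
  · filter_upwards [h1] with z a
    exact mul_le_mul_of_nonneg_left a hc
  · filter_upwards [h3] with r a
    have h4 : circleAverage (fun z => c * k z) 0 r = c * circleAverage k 0 r :=
      circleAverage_fun_smul (𝕜 := ℝ) (a := c) (f := k)
    rw [h4]
    have h5 : c * (ε / (c + 1)) ≤ ε := by
      rw [← mul_div_assoc, div_le_iff₀ (by positivity)]
      nlinarith
    calc c * circleAverage k 0 r ≤ c * (ε / (c + 1) * τ r) := mul_le_mul_of_nonneg_left a hc
      _ = c * (ε / (c + 1)) * τ r := by ring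
      _ ≤ ε * τ r := mul_le_mul_of_nonneg_right h5 (hτ r)

/-- averages of functions below a small one -/
theorem negE_avg {f g : ℂ → ℝ} (hL : ∀ᶠ r in L, (1 : ℝ) ≤ r) (hf : NegE L τ f)
    (h : ∀ᶠ z in codiscrete ℂ, g z ≤ f z) (hg : ∀ r, CircleIntegrable g 0 r) (ε : ℝ) (hε : 0 < ε) :
    ∀ᶠ r in L, circleAverage g 0 r ≤ ε * τ r := by
  obtain ⟨k, h1, h2, h3⟩ := hf ε hε
  filter_upwards [h3, hL] with r h4 hr
  have h5 : ∀ᶠ z in codiscreteWithin (sphere (0 : ℂ) |r|), k z = max (g z) (k z) := by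
    have h6 : ∀ᶠ z in codiscrete ℂ, k z = max (g z) (k z) := by
      filter_upwards [h, h1] with z a b
      rw [max_eq_right (a.trans b)]
    exact codiscreteWithin_mono (subset_univ _) h6
  have h6 : CircleIntegrable (fun z => max (g z) (k z)) 0 r := (h2 r).congr_codiscreteWithin h5
  have h7 : circleAverage k 0 r = circleAverage (fun z => max (g z) (k z)) 0 r :=
    circleAverage_congr_codiscreteWithin h5 (by positivity)
  have h8 := circleAverage_mono (hg r) h6 (fun z _ => le_max_left _ _)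
  linarith

end dict

end Pool.Agent.W2helper42.RB
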