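import Mathlib
import Pool.Agent.W2helper42.RB.Ent

/-!
The second main theorem for entire functions in the abstract form, and the dictionary.
-/

set_option autoImplicit false
set_option linter.unusedSectionVars false

namespace Pool.Agent.W2helper42.RB

open MeasureTheory Set Filter Topology Metric Real ValueDistribution
open Asymptotics
open Pool.Agent.N131.SR
open Pool.Agent.N754.LT (Dc)
open Pool.Agent.H159R3.NV (ci_log ci_posLog mero_of_diff L_mono jensen_entire)

variable {L : Filter ℝ} {τ : ℝ → ℝ} (H : Cmp L τ)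

theorem smtE (hτ : ∀ r, 0 ≤ τ r) (N : ℕ) (κ : Type) [Finite κ] (B : κ → Fin N → ES H)
    (hli : ∀ c, LinearIndependent ℂ (B c))
    (hspan : ∀ c c', Submodule.span ℂ (Set.range (B c)) = Submodule.span ℂ (Set.range (B c')))
    (s : ℂ → κ) :
    NegE L τ (fun z => -∑ a, Real.log ‖(B (s z) a : ℂ → ℂ) z‖) := by
  classical
  have := Fintype.ofFinite κ
  let c0 : κ := s 0
  have hco : ∀ c a, ∃ f : Fin N → ℂ, ∑ j, f j • B c0 j = B c a := by
    intro c a
    rw [← Submodule.mem_span_range_iff_exists_fun, hspan c0 c]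
    exact Submodule.subset_span ⟨a, rfl⟩
  choose M hM using hco
  have hco' : ∀ c a, ∃ f : Fin N → ℂ, ∑ j, f j • B c j = B c0 a := by
    intro c a
    rw [← Submodule.mem_span_range_iff_exists_fun, hspan c c0]
    exact Submodule.subset_span ⟨a, rfl⟩
  choose M' hM' using hco'
  have hdet : ∀ c, (Matrix.of fun a j => M c a j).det ≠ 0 := by
    intro c
    have h1 : (Matrix.of fun a j => M' c a j) * (Matrix.of fun a j => M c a j) = 1 := by
      ext a b
      rw [Matrix.mul_apply]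
      simp only [Matrix.of_apply]
      have h2 : ∑ b, (∑ j, M' c a j * M c j b) • B c0 b =
          ∑ b, (if a = b then (1 : ℂ) else 0) • B c0 b := by
        have h3 : ∑ b, (if a = b then (1 : ℂ) else 0) • B c0 b = B c0 a := by
          simp
        rw [h3, ← hM' c a]
        simp only [← hM c, Finset.smul_sum, Finset.sum_smul, mul_smul]
        rw [Finset.sum_comm]
      have h4 := Fintype.linearIndependent_iff.1 (hli c0)
        (fun b => ∑ j, M' c a j * M c j b - if a = b then (1 : ℂ) else 0) (by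
          simp only [sub_smul, Finset.sum_sub_distrib]
          rw [h2, sub_self]) b
      rw [sub_eq_zero] at h4
      rw [h4, Matrix.one_apply]
    intro h
    have h2 := congrArg Matrix.det h1
    rw [Matrix.det_mul, h, mul_zero, Matrix.det_one] at h2
    exact zero_ne_one h2
  let g : κ → Fin N → ℂ → ℂ := fun c a => (B c a : ℂ → ℂ)
  have hgd : ∀ c a, Differentiable ℂ (g c a) := fun c a => ES.diff H (B c a)
  have hcomb : ∀ c b, g c b = fun z => ∑ j, M c b j * g c0 j z := by
    intro c b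
    have h1 := congrArg Subtype.val (hM c b)
    funext z
    have h2 := congrFun h1 z
    simp only [g]
    rw [← h2]
    simp
  have hW : ∀ c z, Wn (g c) z = (Matrix.of fun a j => M c a j).det * Wn (g c0) z := by
    intro c z
    exact Wn_comb (hgd c0) _ (fun b => hcomb c b) z
  obtain ⟨z0, hz0⟩ := Pool.Agent.H159R3.NV.wron_ne (g c0) (hgd c0) (by
    intro c hc
    have h4 := Fintype.linearIndependent_iff.1 (hli c0) c (by
      apply Subtype.ext
      funext z
      have h5 := hc z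
      simp only [g] at h5
      simpa using h5)
    funext j
    exact h4 j)
  have hWd : Differentiable ℂ (Wn (g c0)) := Wn_diff (hgd c0)
  have hWne : ∀ᶠ z in codiscrete ℂ, Wn (g c0) z ≠ 0 :=
    AnalyticOnNhd.preimage_zero_mem_codiscrete (fun z _ => hWd.analyticAt z) hz0
  have hne : ∀ᶠ z in codiscrete ℂ, ∀ c a, g c a z ≠ 0 := by
    rw [eventually_all]
    intro c
    rw [eventually_all]
    intro a
    exact ES.ne H (B c a) ((hli c).ne_zero a)
  have hps : ∀ c, PS L τ (Dn (g c)) := fun c => ps_Dn H fun b => ES.ot H (B c b)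
  let C : ℝ := ∑ c, |Real.log ‖(Matrix.of fun a j => M c a j).det‖|
  let h : ℂ → ℝ := fun z => (∑ c, log⁺ ‖Dn (g c) z‖) - Real.log ‖Wn (g c0) z‖ + C
  have hci1 : ∀ r, CircleIntegrable (fun z => ∑ c, log⁺ ‖Dn (g c) z‖) 0 r := fun r =>
    CircleIntegrable.fun_sum _ fun c _ => ci_posLog (hps c).1 r
  have hci2 : ∀ r, CircleIntegrable (fun z => Real.log ‖Wn (g c0) z‖) 0 r := fun r =>
    ci_log (mero_of_diff hWd) r
  have hci3 : ∀ r, CircleIntegrable
      (fun z => (∑ c, log⁺ ‖Dn (g c) z‖) - Real.log ‖Wn (g c0) z‖) 0 r := fun r =>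
    (hci1 r).sub (hci2 r)
  refine negE_of (t := fun r => (∑ c, proximity (Dn (g c)) ⊤ r) +
    (C - Pool.Agent.H159R3.NV.L (Wn (g c0)) 1)) (h := h) hτ ?_ ?_ ?_ ?_
  · filter_upwards [hWne, hne] with z h1 h2
    have h3 : Wn (g (s z)) z = (∏ a, g (s z) a z) * Dn (g (s z)) z := Wn_eq _ z (h2 (s z))
    have h4 := hW (s z) z
    have h5 : Real.log ‖Wn (g (s z)) z‖ = Real.log ‖(Matrix.of fun a j => M (s z) a j).det‖ +
        Real.log ‖Wn (g c0) z‖ := by
      rw [h4, norm_mul, Real.log_mul (norm_ne_zero_iff.2 (hdet _)) (norm_ne_zero_iff.2 h1)]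
    have h6 : Dn (g (s z)) z ≠ 0 := by
      intro h0
      rw [h0, mul_zero] at h3
      rw [h4] at h3
      exact mul_ne_zero (hdet _) h1 h3
    have h7 : Real.log ‖Wn (g (s z)) z‖ = ∑ a, Real.log ‖g (s z) a z‖ +
        Real.log ‖Dn (g (s z)) z‖ := by
      rw [h3, norm_mul, norm_prod, Real.log_mul
        (Finset.prod_ne_zero_iff.2 fun a _ => norm_ne_zero_iff.2 (h2 (s z) a))
        (norm_ne_zero_iff.2 h6), Real.log_prod (fun a _ => norm_ne_zero_iff.2 (h2 (s z) a))]
    have h8 : Real.log ‖Dn (g (s z)) z‖ ≤ ∑ c, log⁺ ‖Dn (g c) z‖ := by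
      refine (le_max_right 0 (Real.log ‖Dn (g (s z)) z‖)).trans ?_
      exact Finset.single_le_sum (f := fun c => log⁺ ‖Dn (g c) z‖)
        (fun c _ => posLog_nonneg) (Finset.mem_univ (s z))
    have h9 : -Real.log ‖(Matrix.of fun a j => M (s z) a j).det‖ ≤ C := by
      refine (neg_le_abs _).trans ?_
      exact Finset.single_le_sum
        (f := fun c => |Real.log ‖(Matrix.of fun a j => M c a j).det‖|)
        (fun c _ => abs_nonneg _) (Finset.mem_univ (s z))
    have h10 : ∑ a, Real.log ‖(B (s z) a : ℂ → ℂ) z‖ = ∑ a, Real.log ‖g (s z) a z‖ := rfl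
    rw [h10]
    simp only [h]
    linarith
  · intro r
    exact (hci3 r).add (circleIntegrable_const _ _ _)
  · refine IsLittleO.add ?_ (H.const _)
    have h1 : (fun r => ∑ c, proximity (Dn (g c)) ⊤ r) = ∑ c, proximity (Dn (g c)) ⊤ := by
      funext r
      rw [Finset.sum_apply]
    rw [h1]
    exact IsLittleO.sum fun c _ => (hps c).2
  · filter_upwards [H.ge] with r hr
    simp only [h]
    rw [circleAverage_fun_add (hci3 r) (circleIntegrable_const _ _ _),
      circleAverage_fun_sub (hci1 r) (hci2 r), circleAverage_const,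
      circleAverage_fun_sum (fun c _ => ci_posLog (hps c).1 r)]
    have h1 : ∀ c, circleAverage (fun z => log⁺ ‖Dn (g c) z‖) 0 r = proximity (Dn (g c)) ⊤ r := by
      intro c
      rw [proximity_top]
    simp only [h1]
    have h2 : Pool.Agent.H159R3.NV.L (Wn (g c0)) 1 ≤ Pool.Agent.H159R3.NV.L (Wn (g c0)) r :=
      L_mono hWd one_pos hr
    have h3 : circleAverage (fun z => Real.log ‖Wn (g c0) z‖) 0 r =
        Pool.Agent.H159R3.NV.L (Wn (g c0)) r := rfl
    rw [h3]
    linarith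

theorem unitE (u : (ES H)ˣ) (z : ℂ) :
    ((u : ES H) : ℂ → ℂ) z * (((u⁻¹ : (ES H)ˣ) : ES H) : ℂ → ℂ) z = 1 := by
  have h := congrFun (congrArg Subtype.val (Units.mul_inv u)) z
  exact h

theorem unit_avg (u : (ES H)ˣ) {r : ℝ} (hr : 0 < r) :
    circleAverage (fun z => Real.log ‖((u : ES H) : ℂ → ℂ) z‖) 0 r =
      Real.log ‖((u : ES H) : ℂ → ℂ) 0‖ := by
  have hu := unitE H u
  have h1 : ∀ z, ((u : ES H) : ℂ → ℂ) z ≠ 0 := fun z h => by
    have := hu z
    rw [h, zero_mul] at this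
    exact zero_ne_one this
  have h2 : ∀ z, (((u⁻¹ : (ES H)ˣ) : ES H) : ℂ → ℂ) z ≠ 0 := fun z h => by
    have := hu z
    rw [h, mul_zero] at this
    exact zero_ne_one this
  have e : ∀ z, Real.log ‖(((u⁻¹ : (ES H)ˣ) : ES H) : ℂ → ℂ) z‖ =
      -Real.log ‖((u : ES H) : ℂ → ℂ) z‖ := by
    intro z
    have h3 := congrArg (fun x : ℂ => Real.log ‖x‖) (hu z)
    simp only [norm_mul, norm_one, Real.log_one] at h3
    rw [Real.log_mul (norm_ne_zero_iff.2 (h1 z)) (norm_ne_zero_iff.2 (h2 z))] at h3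
    linarith
  have h3 := jensen_entire hr (ES.diff H (u : ES H)) (h1 0)
  have h4 := jensen_entire hr (ES.diff H ((u⁻¹ : (ES H)ˣ) : ES H)) (h2 0)
  unfold Pool.Agent.H159R3.NV.L at h3 h4
  simp only [e] at h4
  have h5 : circleAverage (fun z => -Real.log ‖((u : ES H) : ℂ → ℂ) z‖) 0 r =
      -circleAverage (fun z => Real.log ‖((u : ES H) : ℂ → ℂ) z‖) 0 r := by
    have := circleAverage_fun_smul (𝕜 := ℝ) (a := (-1 : ℝ)) (c := 0) (R := r)
      (f := fun z => Real.log ‖((u : ES H) : ℂ → ℂ) z‖)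
    simpa using this
  rw [h5] at h4
  linarith

theorem char_prox {f : ℂ → ℂ} (hf : Differentiable ℂ f) (r : ℝ) :
    characteristic f ⊤ r = proximity f ⊤ r := by
  unfold characteristic
  simp only [Pi.add_apply]
  have h1 : logCounting f ⊤ r = 0 := by
    rw [logCounting_top]
    have h2 : (MeromorphicOn.divisor f univ)⁻ = 0 := by
      rw [negPart_eq_zero]
      exact MeromorphicOn.AnalyticOnNhd.divisor_nonneg (fun z _ => hf.analyticAt z)
    rw [h2, map_zero]
    rfl
  rw [h1, add_zero]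

theorem ES.prox (f : ES H) : proximity (f : ℂ → ℂ) ⊤ =O[L] τ := by
  have h1 := (ES.ot H f).2
  have h2 : characteristic (f : ℂ → ℂ) ⊤ = proximity (f : ℂ → ℂ) ⊤ :=
    funext fun r => char_prox (ES.diff H f) r
  rw [← h2]
  exact h1

/-- the analytic instance -/
noncomputable def DcE (hτ : ∀ r, 0 ≤ τ r) : Dc ℂ (ES H) where
  Ω := ℂ
  ev := codiscrete ℂ
  A x z := ‖(x : ℂ → ℂ) z‖
  Neg := NegE L τ
  one z := τ ‖z‖
  A_zero := Eventually.of_forall fun z => by
    show ‖(0 : ℂ)‖ = 0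
    exact norm_zero
  A_pos x hx := by
    filter_upwards [ES.ne H x hx] with z hz
    exact norm_pos_iff.2 hz
  A_mul x y := Eventually.of_forall fun z => norm_mul _ _
  A_add x y := Eventually.of_forall fun z => norm_add_le _ _
  A_const c := ⟨‖c‖, Eventually.of_forall fun z => le_refl _⟩
  neg_mono f g h hf := negE_mono h hf
  neg_add f g hf hg := negE_add hf hg
  neg_smul f c hc hf := negE_smul hτ hc hf
  neg_const c := by
    refine negE_of (h := fun _ => c) (t := fun _ => c) hτ (Eventually.of_forall fun z => le_refl _)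
      (fun r => circleIntegrable_const _ _ _) (H.const c) ?_
    exact Eventually.of_forall fun r => by rw [circleAverage_const]
  one_nonneg := Eventually.of_forall fun z => hτ _
  arch f h := by
    intro ε hε
    obtain ⟨k, h1, h2, h3⟩ := h (ε / 2) (by positivity) (ε / 2) (by positivity)
    have hci : ∀ r, CircleIntegrable (fun z : ℂ => ε / 2 * τ ‖z‖) 0 r := fun r =>
      ci_norm (fun x => ε / 2 * τ x) r
    refine ⟨fun z => k z + ε / 2 * τ ‖z‖, ?_, fun r => (h2 r).add (hci r), ?_⟩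
    · filter_upwards [h1] with z a
      linarith
    · filter_upwards [h3, H.ge] with r a hr
      rw [circleAverage_fun_add (h2 r) (hci r)]
      have h4 : circleAverage (fun z : ℂ => ε / 2 * τ ‖z‖) 0 r = ε / 2 * τ r :=
        avg_norm (fun x => ε / 2 * τ x) (by linarith)
      rw [h4]
      linarith
  bdd u := by
    obtain ⟨C1, hC1, h1⟩ := (ES.prox H (u : ES H)).exists_pos
    obtain ⟨C2, hC2, h2⟩ := (ES.prox H ((u⁻¹ : (ES H)ˣ) : ES H)).exists_pos
    refine ⟨C1 + C2, by positivity, ?_⟩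
    have hm1 : Meromorphic ((u : ES H) : ℂ → ℂ) := mero_of_diff (ES.diff H _)
    have hm2 : Meromorphic (((u⁻¹ : (ES H)ˣ) : ES H) : ℂ → ℂ) := mero_of_diff (ES.diff H _)
    have e : ∀ z, |Real.log ‖((u : ES H) : ℂ → ℂ) z‖| = log⁺ ‖((u : ES H) : ℂ → ℂ) z‖ +
        log⁺ ‖(((u⁻¹ : (ES H)ˣ) : ES H) : ℂ → ℂ) z‖ := by
      intro z
      have h3 : (((u⁻¹ : (ES H)ˣ) : ES H) : ℂ → ℂ) z = (((u : ES H) : ℂ → ℂ) z)⁻¹ :=
        eq_inv_of_mul_eq_one_right (unitE H u z)
      rw [h3, norm_inv]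
      exact abs_log_eq _
    have hci : ∀ r, CircleIntegrable (fun z : ℂ => (C1 + C2) * τ ‖z‖) 0 r := fun r =>
      ci_norm (fun x => (C1 + C2) * τ x) r
    have hci2 : ∀ r, CircleIntegrable (fun z => log⁺ ‖((u : ES H) : ℂ → ℂ) z‖ +
        log⁺ ‖(((u⁻¹ : (ES H)ˣ) : ES H) : ℂ → ℂ) z‖) 0 r := fun r =>
      (ci_posLog hm1 r).add (ci_posLog hm2 r)
    refine negE_of (h := fun z => |Real.log ‖((u : ES H) : ℂ → ℂ) z‖| - (C1 + C2) * τ ‖z‖)
      (t := fun _ => 0) hτ (Eventually.of_forall fun z => le_refl _) ?_ (H.const 0) ?_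
    · intro r
      simp only [e]
      exact (hci2 r).sub (hci r)
    · filter_upwards [h1.bound, h2.bound, H.ge] with r a b hr
      simp only [e]
      rw [circleAverage_fun_sub (hci2 r) (hci r),
        circleAverage_fun_add (ci_posLog hm1 r) (ci_posLog hm2 r)]
      have h4 : circleAverage (fun z : ℂ => (C1 + C2) * τ ‖z‖) 0 r = (C1 + C2) * τ r :=
        avg_norm (fun x => (C1 + C2) * τ x) (by linarith)
      rw [h4]
      rw [Real.norm_eq_abs, Real.norm_eq_abs, abs_of_nonneg (hτ r),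
        abs_of_nonneg (proximity_nonneg r), proximity_top] at a b
      have a' : circleAverage (fun z => log⁺ ‖((u : ES H) : ℂ → ℂ) z‖) 0 r ≤ C1 * τ r := a
      have b' : circleAverage (fun z => log⁺ ‖(((u⁻¹ : (ES H)ˣ) : ES H) : ℂ → ℂ) z‖) 0 r ≤
        C2 * τ r := b
      linarith
  unit_neg u := by
    refine negE_of (h := fun z => Real.log ‖((u : ES H) : ℂ → ℂ) z‖)
      (t := fun _ => Real.log ‖((u : ES H) : ℂ → ℂ) 0‖) hτ
      (Eventually.of_forall fun z => le_refl _)
      (fun r => ci_log (mero_of_diff (ES.diff H _)) r) (H.const _) ?_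
    filter_upwards [H.ge] with r hr
    rw [unit_avg H u (by linarith)]
  smt N κ _ B hli hspan s := smtE H hτ N κ B hli hspan s

theorem szdE (hτ : ∀ r, 0 ≤ τ r) : Pool.Agent.N754.MT.Szd (DcE H hτ) := by
  intro x
  obtain ⟨C, hC, h1⟩ := (ES.prox H x).exists_pos
  refine ⟨C, hC.le, ?_⟩
  have hm : Meromorphic (x : ℂ → ℂ) := mero_of_diff (ES.diff H _)
  have hci : ∀ r, CircleIntegrable (fun z : ℂ => C * τ ‖z‖) 0 r := fun r =>
    ci_norm (fun x => C * τ x) r
  refine negE_of (h := fun z => log⁺ ‖(x : ℂ → ℂ) z‖ - C * τ ‖z‖)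
    (t := fun _ => 0) hτ (Eventually.of_forall fun z => ?_) ?_ (H.const 0) ?_
  · show max (Real.log ‖(x : ℂ → ℂ) z‖) 0 - C * τ ‖z‖ ≤ _
    rw [max_comm]
    exact le_refl _
  · intro r
    exact (ci_posLog hm r).sub (hci r)
  · filter_upwards [h1.bound, H.ge] with r a hr
    rw [circleAverage_fun_sub (ci_posLog hm r) (hci r)]
    have h4 : circleAverage (fun z : ℂ => C * τ ‖z‖) 0 r = C * τ r :=
      avg_norm (fun x => C * τ x) (by linarith)
    rw [h4]
    rw [Real.norm_eq_abs, Real.norm_eq_abs, abs_of_nonneg (hτ r),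
      abs_of_nonneg (proximity_nonneg r), proximity_top] at a
    have a' : circleAverage (fun z => log⁺ ‖(x : ℂ → ℂ) z‖) 0 r ≤ C * τ r := a
    linarith

end Pool.Agent.W2helper42.RB
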