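import Mathlib
import Pool.Agent.W2helper42.RB.Dct
import Pool.Agent.N754.FV.Grm

/-!
The alternative for entire curves: a second point in the fibre, or a Laurent curve.
-/

set_option autoImplicit false
set_option linter.unusedSectionVars false
set_option linter.overlappingInstances false

namespace Pool.Agent.W2helper42.RB

open MeasureTheory Set Filter Topology Metric Real ValueDistribution
open Asymptotics
open Pool.Agent.N131.SR
open Pool.Agent.N754.LT (Dc)
open Pool.Agent.N754.MT (SS mem_SS Szd)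
open Pool.Agent.N754.FV (GC gc gc_eq gc_zero gc_second gc_curve)
open Pool.Agent.H159R3.NV (ci_log ci_posLog mero_of_diff)
open Pool.Agent.H159R3.Exp (Laur)

variable {L : Filter ℝ} {τ : ℝ → ℝ} (H : Cmp L τ)

/-- the germ of a function along an ultrafilter -/
noncomputable def thE (𝒰 : Ultrafilter ℂ) : ES H →+* GC ℂ ℂ 𝒰 :=
  (gc 𝒰).comp ((ES H).val : ES H →+* (ℂ → ℂ))

theorem thE_apply (𝒰 : Ultrafilter ℂ) (x : ES H) : thE H 𝒰 x = gc 𝒰 (x : ℂ → ℂ) := rfl

theorem thE_inj (𝒰 : Ultrafilter ℂ) (h𝒰 : (𝒰 : Filter ℂ) ≤ codiscrete ℂ) :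
    Function.Injective (thE H 𝒰) := by
  rw [injective_iff_map_eq_zero]
  intro x hx
  by_contra h0
  rw [thE_apply, gc_zero] at hx
  obtain ⟨z, h1, h2⟩ := (hx.and (h𝒰 (ES.ne H x h0))).exists
  exact h2 h1

theorem ev_aeval {n : ℕ} (y : Fin n → ES H) (P : MvPolynomial (Fin n) ℂ) (z : ℂ) :
    ((MvPolynomial.aeval y P : ES H) : ℂ → ℂ) z =
      MvPolynomial.eval (fun i => (y i : ℂ → ℂ) z) P := by
  let ev : ES H →ₐ[ℂ] ℂ := (Pi.evalAlgHom ℂ (fun _ : ℂ => ℂ) z).comp (ES H).val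
  have h1 : ev (MvPolynomial.aeval y P) = MvPolynomial.aeval (fun i => ev (y i)) P := by
    have h3 : ev.comp (MvPolynomial.aeval y) = MvPolynomial.aeval (R := ℂ) fun i => ev (y i) := by
      apply MvPolynomial.algHom_ext
      intro i
      rw [AlgHom.comp_apply, MvPolynomial.aeval_X, MvPolynomial.aeval_X]
    rw [← h3]
    rfl
  have h2 : ((MvPolynomial.aeval y P : ES H) : ℂ → ℂ) z = ev (MvPolynomial.aeval y P) := rfl
  rw [h2, h1, MvPolynomial.aeval_eq_eval]
  rfl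

/-- **The alternative for entire curves.** -/
theorem seqE (H : Cmp L τ) (hτ : ∀ r, 0 ≤ τ r) {n : ℕ} (f : Fin n → ℂ → ℂ)
    (hd : ∀ i, Differentiable ℂ (f i)) (hτf : ∀ r, τ r = ∑ i, proximity (f i) ⊤ r)
    (U A : Finset (Fin n)) {ι : Type} [Finite ι] (F : ι → MvPolynomial (Fin n) ℂ)
    (hF : ∀ l z, MvPolynomial.eval (fun i => f i z) (F l) = 0)
    (hU : ∀ i ∈ U, ∀ z, f i z ≠ 0) (hA : ∀ i ∈ A, proximity (f i) ⊤ =o[L] τ)
    (𝒰 : Ultrafilter ℂ) (h𝒰 : (𝒰 : Filter ℂ) ≤ codiscrete ℂ) :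
    ∀ᶠ z in (𝒰 : Filter ℂ),
      (∃ z' : Fin n → ℂ, (∀ l, MvPolynomial.eval z' (F l) = 0) ∧
        (∀ i ∈ U ∪ A, z' i = f i z) ∧ z' ≠ fun i => f i z) ∨
      ∃ v : ℂ → Fin n → ℂ, (∀ j, Laur fun s => v s j) ∧
        (∀ l s, s ≠ 0 → MvPolynomial.eval (v s) (F l) = 0) ∧
        (∀ i ∈ A, ∀ s, s ≠ 0 → v s i = f i z) ∧ (v 1 = fun i => f i z) ∧
          ∃ j, v 2 j ≠ v 1 j := by
  classical
  have hO : ∀ i, OT L τ (f i) := by
    intro i
    refine ⟨mero_of_diff (hd i), H.O_of_le (t := τ) (fun r _ => ?_) (isBigO_refl τ L)⟩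
    rw [char_prox (hd i), hτf r]
    exact ⟨proximity_nonneg r, Finset.single_le_sum (f := fun i => proximity (f i) ⊤ r)
      (fun _ _ => proximity_nonneg r) (Finset.mem_univ i)⟩
  let y : Fin n → ES H := fun i => ⟨f i, hd i, hO i⟩
  have hyF : ∀ l, MvPolynomial.aeval y (F l) = 0 := by
    intro l
    apply Subtype.ext
    funext z
    rw [ev_aeval]
    exact hF l z
  have hyU : ∀ i ∈ U, IsUnit (y i) := by
    intro i hi
    refine IsUnit.of_mul_eq_one (⟨fun z => (f i z)⁻¹, ?_, (hO i).inv H⟩ : ES H) ?_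
    · exact fun z => ((hd i) z).inv (hU i hi z)
    · apply Subtype.ext
      funext z
      exact mul_inv_cancel₀ (hU i hi z)
  have hyA : ∀ i ∈ A, y i ∈ SS (DcE H hτ) := by
    intro i hi
    rw [mem_SS]
    refine negE_of (h := fun z => log⁺ ‖f i z‖) (t := proximity (f i) ⊤) hτ
      (Eventually.of_forall fun z => ?_) (fun r => ci_posLog (mero_of_diff (hd i)) r) (hA i hi)
      (Eventually.of_forall fun r => ?_)
    · show max (Real.log ‖f i z‖) 0 ≤ _
      rw [max_comm]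
      exact le_refl _
    · rw [proximity_top]
  have hci1 : ∀ r, CircleIntegrable (fun z => ∑ i, log⁺ ‖f i z‖) 0 r := fun r =>
    CircleIntegrable.fun_sum _ fun i _ => ci_posLog (mero_of_diff (hd i)) r
  have hone : ∃ C : ℝ, 0 ≤ C ∧ (DcE H hτ).Neg (fun ω => (DcE H hτ).one ω -
      C * ∑ i, max ((DcE H hτ).lg (y i) ω) 0) := by
    refine ⟨1, zero_le_one, ?_⟩
    refine negE_of (h := fun z => τ ‖z‖ - ∑ i, log⁺ ‖f i z‖) (t := fun _ => 0) hτ
      (Eventually.of_forall fun z => ?_) (fun r => (ci_norm τ r).sub (hci1 r)) (H.const 0) ?_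
    · show τ ‖z‖ - 1 * ∑ i, max (Real.log ‖f i z‖) 0 ≤ _
      rw [one_mul]
      refine le_of_eq (congrArg _ (Finset.sum_congr rfl fun i _ => ?_))
      rw [max_comm]
      rfl
    · filter_upwards [H.ge] with r hr
      rw [circleAverage_fun_sub (ci_norm τ r) (hci1 r), avg_norm τ (by linarith),
        circleAverage_fun_sum (fun i _ => ci_posLog (mero_of_diff (hd i)) r), hτf r]
      have h1 : ∀ i, circleAverage (fun z => log⁺ ‖f i z‖) 0 r = proximity (f i) ⊤ r := by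
        intro i
        rw [proximity_top]
      simp only [h1, sub_self, le_refl]
  have hnn : ¬ (DcE H hτ).Neg (DcE H hτ).one := by
    intro h
    have hne := H.big.ne
    have h1 := negE_avg H.ge h (Eventually.of_forall fun z => le_refl (τ ‖z‖))
      (fun r => ci_norm τ r) (1 / 2) (by norm_num)
    have h2 := isLittleO_iff.1 H.one (show (0 : ℝ) < 1 / 2 by norm_num)
    obtain ⟨r, h3, h4, h5⟩ := (h1.and (h2.and H.ge)).exists
    rw [avg_norm τ (by linarith)] at h3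
    rw [Real.norm_eq_abs, Real.norm_eq_abs, abs_one, abs_of_nonneg (hτ r)] at h4
    linarith
  have hchar : CharZero (GC ℂ ℂ 𝒰) := by
    refine charZero_of_injective_ringHom (f := (gc 𝒰).comp (Pi.constRingHom ℂ ℂ)) ?_
    exact RingHom.injective _
  have hcomp : (thE H 𝒰).comp (algebraMap ℂ (ES H)) =
      (gc 𝒰).comp ((Pi.constRingHom ℂ ℂ).comp (RingHom.id ℂ)) := RingHom.ext fun c => rfl
  have hev : ∀ (z : Fin n → ℂ) (P : MvPolynomial (Fin n) ℂ),
      MvPolynomial.eval₂ (RingHom.id ℂ) z P = MvPolynomial.eval z P := fun z P => rfl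
  rcases Pool.Agent.N754.MT.main (DcE H hτ) (thE H 𝒰) (thE_inj H 𝒰 h𝒰) (szdE H hτ) U A F y hyF
    hyU hyA hone hnn with h | h
  · rw [hcomp] at h
    have h1 := gc_second 𝒰 (RingHom.id ℂ) (U ∪ A) F (fun z i => f i z) h
    filter_upwards [h1] with z hz
    exact Or.inl hz
  · rw [hcomp] at h
    have h1 := gc_curve 𝒰 (RingHom.id ℂ) A F (fun z i => f i z) h
    filter_upwards [h1] with z hz
    exact Or.inr hz

end Pool.Agent.W2helper42.RB
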