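import Mathlib
import Pool.Agent.W235.RM.Final
import Pool.Agent.N754.LT.Alg

/-!
The three conditions, relative to the coordinates in a set `A`.
-/

set_option autoImplicit false

namespace Pool.Agent.W2helper42.RB

open MvPolynomial IsDedekindDomain MeasureTheory
open Pool.Agent.H159R3.Exp
open scoped NumberField

variable {K : Type} [Field K] {ι κ : Type} {n : ℕ}

/-- The complex points of the affine scheme given by the polynomials `F`. -/
def CPts (σ : K →+* ℂ) (F : ι → MvPolynomial (Fin n) (𝓞 K)) : Set (Fin n → ℂ) :=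
  {z | ∀ l, eval₂ (σ.comp (algebraMap (𝓞 K) K)) z (F l) = 0}

/-- `v` is a nonconstant map from the punctured line to `V`, given by Laurent polynomials, and its
coordinates in `A` are constant. -/
def IsVertGm (σ : K →+* ℂ) (F : ι → MvPolynomial (Fin n) (𝓞 K)) (A : Finset (Fin n))
    (v : ℂ → Fin n → ℂ) : Prop :=
  (∀ j, Laur fun s => v s j) ∧ (∀ s, s ≠ 0 → v s ∈ CPts σ F) ∧
    (∀ i ∈ A, ∀ s, s ≠ 0 → v s i = v 1 i) ∧ ∃ s, s ≠ 0 ∧ v s ≠ v 1

/-- Every nonconstant map from the punctured line to `V` with constant coordinates in `A` lies in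
`V'`. -/
def VertGmIn (σ : K →+* ℂ) (F : ι → MvPolynomial (Fin n) (𝓞 K))
    (G : κ → MvPolynomial (Fin n) (𝓞 K)) (A : Finset (Fin n)) : Prop :=
  ∀ v, IsVertGm σ F A v → ∀ s, s ≠ 0 → v s ∈ CPts σ G

/-- The heights of all coordinates of the `S`-integral points of `V` outside `V'` are bounded,
linearly, by the heights of the coordinates in `A`. -/
def IntegralBound (F : ι → MvPolynomial (Fin n) (𝓞 K)) (G : κ → MvPolynomial (Fin n) (𝓞 K))
    (A : Finset (Fin n)) : Prop :=
  ∀ (L : Type) [Field L] [NumberField L] [Algebra K L] (S : Set (HeightOneSpectrum (𝓞 L))),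
    S.Finite → ∃ C : ℝ, ∀ x ∈ intPoints F L S \ intPoints G L S,
      ∑ j, Height.logHeight₁ (x j) ≤ C * (1 + ∑ i ∈ A, Height.logHeight₁ (x i))

/-- The characteristic function of Nevanlinna of an entire function. -/
noncomputable def charFn (f : ℂ → ℂ) (r : ℝ) : ℝ :=
  Real.circleAverage (fun z => Real.posLog ‖f z‖) 0 r

/-- The characteristic functions of all coordinates of an entire curve in `V`, which does not lie in
`V'`, are bounded, linearly, by those of the coordinates in `A`, outside a set of radii of finite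
measure. -/
def EntireBound (σ : K →+* ℂ) (F : ι → MvPolynomial (Fin n) (𝓞 K))
    (G : κ → MvPolynomial (Fin n) (𝓞 K)) (A : Finset (Fin n)) : Prop :=
  ∀ f : ℂ → Fin n → ℂ, Differentiable ℂ f → (∀ z, f z ∈ CPts σ F) → (∃ z, f z ∉ CPts σ G) →
    ∃ (C : ℝ) (E : Set ℝ), volume E < ⊤ ∧ ∀ r, 1 ≤ r → r ∉ E →
      ∑ j, charFn (fun z => f z j) r ≤ C * (1 + ∑ i ∈ A, charFn (fun z => f z i) r)

/-- The coordinates in `U` have no zeros on `V`. -/
def UnitsOn (σ : K →+* ℂ) (F : ι → MvPolynomial (Fin n) (𝓞 K)) (U : Finset (Fin n)) : Prop :=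
  ∀ z ∈ CPts σ F, ∀ i ∈ U, z i ≠ 0

/-- Every point of `V` outside `V'`, which is not determined by its coordinates in `A ∪ U`, lies on
a nonconstant image in `V` of the punctured line, on which the coordinates in `A` are constant. -/
def Covered (σ : K →+* ℂ) (F : ι → MvPolynomial (Fin n) (𝓞 K))
    (G : κ → MvPolynomial (Fin n) (𝓞 K)) (A U : Finset (Fin n)) : Prop :=
  ∀ z ∈ CPts σ F, z ∉ CPts σ G → ∀ z' ∈ CPts σ F, (∀ i ∈ U ∪ A, z' i = z i) → z' ≠ z →
    ∃ v, IsVertGm σ F A v ∧ v 1 = z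

/-- The polynomials have degree at most one in the coordinates outside `A ∪ U`. -/
def LinearOff (F : ι → MvPolynomial (Fin n) (𝓞 K)) (A U : Finset (Fin n)) : Prop :=
  ∀ l, ∀ α ∈ (F l).support, ∑ j ∈ (U ∪ A)ᶜ, α j ≤ 1

theorem line_eval {W : Finset (Fin n)} {P : MvPolynomial (Fin n) ℂ}
    (hP : Pool.Agent.N754.LT.LinOff W P) (z z' : Fin n → ℂ) (hzz : ∀ i ∈ W, z' i = z i) (s : ℂ) :
    eval (fun j => z j + (s - 1) * (z' j - z j)) P = (2 - s) * eval z P + (s - 1) * eval z' P := by
  have h0 : ∀ y : Fin n → ℂ, eval y P = aeval y P := fun y => rfl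
  have hw : Pool.Agent.N754.LT.z0 W (fun j => z j + (s - 1) * (z' j - z j)) =
      Pool.Agent.N754.LT.z0 W z := by
    funext j
    unfold Pool.Agent.N754.LT.z0
    by_cases hj : j ∈ W
    · rw [if_pos hj, if_pos hj]
      show z j + (s - 1) * (z' j - z j) = z j
      rw [hzz j hj]
      ring
    · rw [if_neg hj, if_neg hj]
  have hw' : Pool.Agent.N754.LT.z0 W z' = Pool.Agent.N754.LT.z0 W z := by
    funext j
    unfold Pool.Agent.N754.LT.z0
    by_cases hj : j ∈ W
    · rw [if_pos hj, if_pos hj, hzz j hj]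
    · rw [if_neg hj, if_neg hj]
  rw [h0, h0, h0, Pool.Agent.N754.LT.affine_expand W P hP, Pool.Agent.N754.LT.affine_expand W P hP z,
    Pool.Agent.N754.LT.affine_expand W P hP z', hw, hw']
  have h1 : ∑ j ∈ Wᶜ, (z j + (s - 1) * (z' j - z j)) *
        aeval (Pool.Agent.N754.LT.z0 W z) (pderiv j P) =
      (2 - s) * ∑ j ∈ Wᶜ, z j * aeval (Pool.Agent.N754.LT.z0 W z) (pderiv j P) +
      (s - 1) * ∑ j ∈ Wᶜ, z' j * aeval (Pool.Agent.N754.LT.z0 W z) (pderiv j P) := by
    rw [Finset.mul_sum, Finset.mul_sum, ← Finset.sum_add_distrib]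
    refine Finset.sum_congr rfl fun j _ => ?_
    ring
  rw [h1]
  ring

/-- for equations of degree at most one, there are lines -/
theorem covered_of_linear (σ : K →+* ℂ) (F : ι → MvPolynomial (Fin n) (𝓞 K))
    (G : κ → MvPolynomial (Fin n) (𝓞 K)) (A U : Finset (Fin n)) (h : LinearOff F A U) :
    Covered σ F G A U := by
  intro z hz _ z' hz' hzz hne
  refine ⟨fun s j => z j + (s - 1) * (z' j - z j), ⟨fun j => ?_, fun s hs l => ?_, fun i hi s hs => ?_,
    2, two_ne_zero, fun h1 => hne ?_⟩, ?_⟩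
  · exact (Laur.const (z j)).add ((Laur.id.add (Laur.const (-1))).mul (Laur.const (z' j - z j)))
  · have h1 : Pool.Agent.N754.LT.LinOff (U ∪ A) (map (σ.comp (algebraMap (𝓞 K) K)) (F l)) :=
      fun α hα => h l α (support_map_subset _ _ hα)
    have h2 := line_eval h1 z z' hzz s
    rw [eval_map, eval_map, eval_map, hz l, hz' l] at h2
    rw [h2]
    ring
  · show z i + (s - 1) * (z' i - z i) = z i + (1 - 1) * (z' i - z i)
    rw [hzz i (Finset.mem_union_right _ hi)]
    ring
  · funext j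
    have h2 := congrFun h1 j
    simp only at h2
    linear_combination h2
  · funext j
    ring

end Pool.Agent.W2helper42.RB
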