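import Mathlib
import Pool.Agent.W2helper42.RB.Dfs

/-!
The arithmetic bound implies the condition on maps from the punctured line.
-/

set_option autoImplicit false

namespace Pool.Agent.W2helper42.RB

open MvPolynomial IsDedekindDomain
open Pool.Agent Pool.Agent.H159R3.Exp
open scoped NumberField

/-- descent of curves with constant coordinates -/
theorem descendA {K : Type} [Field K] [NumberField K] {n : ℕ} {ι : Type}
    (F : ι → MvPolynomial (Fin n) K) (A : Finset (Fin n)) (W : MvPolynomial (Fin n ⊕ Fin n) K)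
    [Algebra K ℂ] (v : ℂ → Fin n → ℂ) (hv : ∀ j, Laur (fun t => v t j))
    (hF : ∀ i t, t ≠ 0 → aeval (v t) (F i) = 0) (hA : ∀ i ∈ A, ∀ t, t ≠ 0 → v t i = v 1 i)
    (k0 k1 : ℕ) (hW : aeval (Sum.elim (v (2 ^ k0)) (v (2 ^ k1))) W ≠ 0) :
    ∃ (L : Type) (_ : Field L) (_ : Algebra K L) (_ : NumberField L) (_ : FiniteDimensional K L)
      (v' : L → Fin n → L), (∀ j, Laur (fun t => v' t j)) ∧
        (∀ i t, t ≠ 0 → aeval (v' t) (F i) = 0) ∧ (∀ i ∈ A, ∀ t, t ≠ 0 → v' t i = v' 1 i) ∧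
        aeval (Sum.elim (v' (2 ^ k0)) (v' (2 ^ k1))) W ≠ 0 := by
  classical
  obtain ⟨e, Q, hQ⟩ := Laur.common v hv
  let D := Finset.univ.sup (fun j => (Q j).natDegree)
  let κ0 : Fin n × Fin (D + 1) → ℂ := fun p => (Q p.1).coeff p.2
  have hκ0 : ∀ t, t ≠ 0 → cpt e κ0 t = v t := by
    intro t ht
    funext j
    rw [hQ t ht j]
    unfold cpt
    congr 1
    rw [Polynomial.eval_eq_sum_range' (n := D + 1) (Nat.lt_succ_of_le (Finset.le_sup
      (f := fun j => (Q j).natDegree) (Finset.mem_univ j)))]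
    rw [Finset.sum_range]
  have hgF : ∀ (M : Type) [Field M] [Algebra K M] (κ : Fin n × Fin (D + 1) → M) (k : ℕ)
      (p : MvPolynomial (Fin n) K),
      aeval κ (bind₁ (gpt (K := K) (D := D) e k) p) = aeval (cpt e κ (2 ^ k)) p := by
    intro M _ _ κ k p
    rw [aeval_bind₁]
    congr 2
    funext j
    rw [aeval_gpt]
  have hgW : ∀ (M : Type) [Field M] [Algebra K M] (κ : Fin n × Fin (D + 1) → M),
      aeval κ (bind₁ (Sum.elim (gpt (K := K) (D := D) e k0) (gpt (K := K) (D := D) e k1)) W)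
        = aeval (Sum.elim (cpt e κ (2 ^ k0)) (cpt e κ (2 ^ k1))) W := by
    intro M _ _ κ
    rw [aeval_bind₁]
    congr 2
    funext j
    rcases j with j | j
    · simp only [Sum.elim_inl]
      rw [aeval_gpt]
    · simp only [Sum.elim_inr]
      rw [aeval_gpt]
  obtain ⟨κ, hκ, hκW⟩ := H952R2.Sextic.transfer (k := K) (kb := AlgebraicClosure K)
    (Sum.elim (fun x : ι × ℕ => bind₁ (gpt (K := K) (D := D) e x.2) (F x.1))
      (fun x : A × ℕ => gpt (K := K) (D := D) e x.2 (x.1 : Fin n) - gpt e 0 (x.1 : Fin n)))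
    (bind₁ (Sum.elim (gpt (K := K) (D := D) e k0) (gpt (K := K) (D := D) e k1)) W)
    ⟨κ0, fun x => by
      rcases x with x | x
      · simp only [Sum.elim_inl]
        rw [hgF ℂ, hκ0 _ (pow_ne_zero _ two_ne_zero)]
        exact hF _ _ (pow_ne_zero _ two_ne_zero)
      · simp only [Sum.elim_inr]
        rw [map_sub, aeval_gpt, aeval_gpt, hκ0 _ (pow_ne_zero _ two_ne_zero),
          hκ0 _ (pow_ne_zero _ two_ne_zero), hA _ x.1.2 _ (pow_ne_zero _ two_ne_zero),
          hA _ x.1.2 _ (pow_ne_zero _ two_ne_zero), sub_self], by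
      rw [hgW ℂ, hκ0 _ (pow_ne_zero _ two_ne_zero), hκ0 _ (pow_ne_zero _ two_ne_zero)]
      exact hW⟩
  let L := IntermediateField.adjoin K (Set.range κ)
  have hfinL : FiniteDimensional K L := by
    apply IntermediateField.finiteDimensional_adjoin
    intro x _
    exact Algebra.IsIntegral.isIntegral x
  have hNF : NumberField L := NumberField.of_module_finite K L
  let κL : Fin n × Fin (D + 1) → L :=
    fun j => ⟨κ j, IntermediateField.subset_adjoin K _ ⟨j, rfl⟩⟩
  refine ⟨L, inferInstance, inferInstance, hNF, hfinL, cpt e κL, cpt_laur e κL, ?_, ?_, ?_⟩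
  · intro i
    apply Laur.zero_of_zero (Laur.eval₂ (algebraMap K L) (cpt e κL) (cpt_laur e κL) (F i))
    intro m
    change aeval (cpt e κL (2 ^ m)) (F i) = 0
    rw [← hgF L]
    apply (algebraMap L (AlgebraicClosure K)).injective
    rw [map_zero, ← hκ (Sum.inl (i, m)), ← aeval_algebraMap_apply]
    rfl
  · intro i hi t ht
    have h1 : Laur fun t => cpt e κL t i + -(cpt e κL 1 i) :=
      (cpt_laur e κL i).add (Laur.const _)
    have h2 := Laur.zero_of_zero h1 (fun m => by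
      have h3 := hκ (Sum.inr (⟨i, hi⟩, m))
      simp only [Sum.elim_inr] at h3
      have h4 : ∀ k : ℕ, aeval κ (gpt (K := K) (D := D) e k i) =
          algebraMap L (AlgebraicClosure K) (cpt e κL (2 ^ k) i) := by
        intro k
        rw [← aeval_gpt (K := K) e k i κL, ← aeval_algebraMap_apply]
        rfl
      rw [map_sub, h4, h4, ← map_sub, pow_zero] at h3
      have h5 := (map_eq_zero _).1 h3
      rw [← sub_eq_add_neg]
      exact h5) t ht
    linear_combination h2
  · rw [← hgW L]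
    intro h0
    apply hκW
    have h1 := congrArg (algebraMap L (AlgebraicClosure K)) h0
    rw [map_zero, ← aeval_algebraMap_apply] at h1
    exact h1

/-- the arithmetic bound implies the condition on maps from the punctured line -/
theorem vert_of_integral {K : Type} [Field K] [NumberField K] {ι κ : Type} {n : ℕ} (σ : K →+* ℂ)
    (F : ι → MvPolynomial (Fin n) (𝓞 K)) (G : κ → MvPolynomial (Fin n) (𝓞 K))
    (A : Finset (Fin n)) (h : IntegralBound F G A) : VertGmIn σ F G A := by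
  classical
  rintro v ⟨hv, hvF, hvA, s1, hs1, hne⟩ s0 hs0
  by_contra hG
  obtain ⟨l, hl⟩ : ∃ l, eval₂ (σ.comp (algebraMap (𝓞 K) K)) (v s0) (G l) ≠ 0 := by
    by_contra hcon
    push Not at hcon
    exact hG hcon
  obtain ⟨j1, hj1⟩ := Function.ne_iff.1 hne
  obtain ⟨k0, hk0⟩ : ∃ k : ℕ, eval₂ (σ.comp (algebraMap (𝓞 K) K)) (v (2 ^ k)) (G l) ≠ 0 := by
    by_contra hcon
    push Not at hcon
    exact hl (Laur.zero_of_zero (Laur.eval₂ (σ.comp (algebraMap (𝓞 K) K)) v hv (G l)) hcon s0 hs0)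
  obtain ⟨k1, hk1⟩ : ∃ k : ℕ, v (2 ^ k) j1 ≠ v (2 ^ k0) j1 := by
    by_contra hcon
    push Not at hcon
    have h1 : Laur fun t => v t j1 + -(v (2 ^ k0) j1) := (hv j1).add (Laur.const _)
    have h2 := Laur.zero_of_zero h1 (fun m => by
      rw [hcon m]
      ring)
    apply hj1
    have h3 := h2 s1 hs1
    have h4 := h2 1 one_ne_zero
    linear_combination h3 - h4
  -- descend
  let _ := σ.toAlgebra
  let FK : ι → MvPolynomial (Fin n) K := fun i => map (algebraMap (𝓞 K) K) (F i)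
  have hmap : ∀ (M : Type) [Field M] [Algebra K M] (y : Fin n → M)
      (p : MvPolynomial (Fin n) (𝓞 K)), aeval y (map (algebraMap (𝓞 K) K) p)
        = eval₂ ((algebraMap K M).comp (algebraMap (𝓞 K) K)) y p := by
    intro M _ _ y p
    rw [aeval_def, eval₂_map]
  obtain ⟨L, _, _, hNF, -, v', hv', hv'F, hv'A, hv'W⟩ := descendA FK A
    (rename Sum.inl (map (algebraMap (𝓞 K) K) (G l)) * (X (Sum.inr j1) - X (Sum.inl j1))) v hv
    (fun i t ht => by
      rw [hmap ℂ]
      exact hvF t ht i) hvA k0 k1 (by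
    rw [map_mul, aeval_rename, map_sub, aeval_X, aeval_X]
    simp only [Sum.elim_comp_inl, Sum.elim_inr, Sum.elim_inl]
    rw [hmap ℂ]
    exact mul_ne_zero hk0 (sub_ne_zero.mpr hk1))
  rw [map_mul, aeval_rename, map_sub, aeval_X, aeval_X] at hv'W
  simp only [Sum.elim_comp_inl, Sum.elim_inr, Sum.elim_inl] at hv'W
  have hGL := left_ne_zero_of_mul hv'W
  have hne' := sub_ne_zero.mp (right_ne_zero_of_mul hv'W)
  obtain ⟨S, hS, hint⟩ := integral_pts v' hv'
  have hGLaur : Laur (fun t => aeval (v' t) (map (algebraMap (𝓞 K) K) (G l))) :=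
    Laur.eval₂ (algebraMap K L) v' hv' _
  have hzeros : {k : ℕ | aeval (v' (2 ^ k)) (map (algebraMap (𝓞 K) K) (G l)) = 0}.Finite :=
    hGLaur.finite_zeros ⟨2 ^ k0, pow_ne_zero _ two_ne_zero, hGL⟩
  have hfib : ∀ c : L, {k : ℕ | v' (2 ^ k) j1 = c}.Finite := by
    intro c
    have h1 : Laur (fun t => v' t j1 + -c) := (hv' j1).add (Laur.const _)
    have h2 : ∃ t, t ≠ 0 ∧ v' t j1 + -c ≠ 0 := by
      by_contra hcon
      push Not at hcon
      apply hne'
      have h3 := hcon (2 ^ k1) (pow_ne_zero _ two_ne_zero)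
      have h4 := hcon (2 ^ k0) (pow_ne_zero _ two_ne_zero)
      linear_combination h3 - h4
    refine (h1.finite_zeros h2).subset ?_
    intro k hk
    change v' (2 ^ k) j1 + -c = 0
    rw [show v' (2 ^ k) j1 = c from hk]
    ring
  obtain ⟨C, hC⟩ := h L S hS
  have hinf : {k : ℕ | aeval (v' (2 ^ k)) (map (algebraMap (𝓞 K) K) (G l)) = 0}ᶜ.Infinite :=
    hzeros.infinite_compl
  apply hinf
  let B : ℝ := C * (1 + ∑ i ∈ A, Height.logHeight₁ (v' 1 i))
  have hN := NumberField.finite_setOfPred_logHeight₁_le (K := L) B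
  refine (hN.biUnion fun c _ => hfib c).subset ?_
  intro k hk
  refine Set.mem_biUnion (x := v' (2 ^ k) j1) ?_ rfl
  have h1 := hC (v' (2 ^ k)) ⟨⟨fun j => hint k j, fun i => by
    rw [← hmap L]
    exact hv'F i _ (pow_ne_zero _ two_ne_zero)⟩, fun hmem => hk (by
    change aeval (v' (2 ^ k)) (map (algebraMap (𝓞 K) K) (G l)) = 0
    rw [hmap L]
    exact hmem.2 l)⟩
  have h2 : ∑ i ∈ A, Height.logHeight₁ (v' (2 ^ k) i) = ∑ i ∈ A, Height.logHeight₁ (v' 1 i) :=
    Finset.sum_congr rfl fun i hi => by rw [hv'A i hi _ (pow_ne_zero _ two_ne_zero)]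
  rw [h2] at h1
  have h3 : Height.logHeight₁ (v' (2 ^ k) j1) ≤ ∑ j, Height.logHeight₁ (v' (2 ^ k) j) :=
    Finset.single_le_sum (f := fun j => Height.logHeight₁ (v' (2 ^ k) j))
      (fun j _ => Height.zero_le_logHeight₁ _) (Finset.mem_univ j1)
  exact h3.trans h1

end Pool.Agent.W2helper42.RB
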