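import Mathlib
import Pool.Agent.Helper259.HtExt
import Pool.Agent.Y742.SF.PDex

/-!
Heights of integral points from the absolute values of the place data.
-/

set_option autoImplicit false

namespace Pool.Agent.W2helper42.RB

open NumberField IsDedekindDomain Height
open Pool.Agent.Y742.SF

theorem ht_ext (K L : Type) [Field K] [NumberField K] [Field L] [NumberField L] [Algebra K L]
    (x : K) : logHeight₁ (algebraMap K L x) = Module.finrank K L * logHeight₁ x := by
  rw [logHeight₁_eq_logHeight, logHeight₁_eq_logHeight]
  have h := Pool.Agent.Helper259.HtExt.logHeight_ext (L := L) (![x, 1] : Fin 2 → K)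
  rw [← h]
  congr 1
  funext i
  fin_cases i <;> simp

theorem sum_infinitePlace (K : Type) [Field K] [NumberField K] (g : InfinitePlace K → ℝ) :
    ∑ w : InfinitePlace K, (w.mult : ℝ) * g w = ∑ φ : K →+* ℂ, g (InfinitePlace.mk φ) := by
  classical
  rw [← Finset.sum_fiberwise Finset.univ (fun φ : K →+* ℂ => InfinitePlace.mk φ)
    (fun φ => g (InfinitePlace.mk φ))]
  refine Finset.sum_congr rfl fun w _ => ?_
  have : ∀ φ ∈ Finset.univ.filter (fun φ : K →+* ℂ => InfinitePlace.mk φ = w),
      g (InfinitePlace.mk φ) = g w := by
    intro φ hφ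
    rw [(Finset.mem_filter.mp hφ).2]
  rw [Finset.sum_congr rfl this, Finset.sum_const, InfinitePlace.card_filter_mk_eq, nsmul_eq_mul]

variable {M : Type} [Field M] [NumberField M] [IsGalois ℚ M]

theorem ht_av (D : PD M) (x : M) (hx : D.TInt x) :
    ∑ v, max (Real.log (D.av v x)) 0 = logHeight₁ x := by
  classical
  rw [NumberField.logHeight₁_eq, Fintype.sum_sum_type]
  congr 1
  · rw [sum_infinitePlace M (fun v => Real.posLog (v x))]
    have hb : Function.Bijective fun s : M ≃ₐ[ℚ] M => D.ψ.comp (s : M →+* M) := by
      constructor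
      · intro s t h
        apply AlgEquiv.ext
        intro y
        exact D.ψ.injective (RingHom.congr_fun h y)
      · intro φ
        obtain ⟨s, hs⟩ := exists_embs D.ψ φ
        exact ⟨s, RingHom.ext fun y => (hs y).symm⟩
    refine Fintype.sum_bijective _ hb _ _ fun s => ?_
    show max (Real.log ‖D.ψ (s x)‖) 0 = Real.posLog (InfinitePlace.mk (D.ψ.comp (s : M →+* M)) x)
    rw [InfinitePlace.apply, Real.posLog_apply, max_comm]
    rfl
  · have hinj : Function.Injective fun w : Fin D.s => FinitePlace.mk (D.P w) := by
      intro a b h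
      apply D.hP
      rw [← FinitePlace.maximalIdeal_mk (D.P a), ← FinitePlace.maximalIdeal_mk (D.P b)]
      exact congrArg _ h
    rw [finsum_eq_sum_of_support_subset (s := Finset.univ.image fun w : Fin D.s =>
      FinitePlace.mk (D.P w)), Finset.sum_image fun a _ b _ h => hinj h]
    · refine Finset.sum_congr rfl fun w _ => ?_
      rw [Real.posLog_apply, max_comm]
      rfl
    · intro v hv
      rw [Finset.coe_image, Finset.coe_univ, Set.image_univ]
      by_contra hcon
      apply hv
      have h1 : ∀ w, v.maximalIdeal ≠ D.P w := by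
        intro w h
        apply hcon
        refine ⟨w, ?_⟩
        show FinitePlace.mk (D.P w) = v
        rw [← h, FinitePlace.mk_maximalIdeal]
      have h2 := hx v.maximalIdeal h1
      unfold fv at h2
      rw [FinitePlace.mk_maximalIdeal] at h2
      rw [Real.posLog_eq_zero_iff, abs_of_nonneg (apply_nonneg v x)]
      exact h2

end Pool.Agent.W2helper42.RB
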