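import Mathlib
import Pool.Agent.N754.LT.Ari
import Pool.Agent.N754.MT.Main
import Pool.Agent.N754.FV.Grm

/-!
The alternative for sequences of integral points: a second point in the fibre, or a Laurent curve.
-/

set_option autoImplicit false
set_option linter.unusedSectionVars false
set_option linter.overlappingInstances false

open Finset MvPolynomial Filter

namespace Pool.Agent.W2helper42.RB

open NumberField IsDedekindDomain
open Pool.Agent.Y742.SF Pool.Agent.Y742.AR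
open Pool.Agent.N754 Pool.Agent.N754.LT
open Pool.Agent.N754.MT (SS mem_SS Szd)
open Pool.Agent.H159R3.Exp (Laur)

variable {M : Type} [Field M] [NumberField M] [IsGalois ℚ M] {D : PD M} {𝒰 : Ultrafilter ℕ}
  {N : ℕ → ℝ} {hN : ∀ t, 1 ≤ N t}

theorem szdA (hNt : Tendsto N (𝒰 : Filter ℕ) atTop) : Szd (DcA (D := D) (hN := hN) hNt) := by
  intro x
  obtain ⟨C, hC, h1⟩ := ((mem_R0 hN _).1 (vl_mem x)).2
  refine ⟨C, hC, fun ε hε => ?_⟩
  filter_upwards [h1] with t h2
  have h3 : ∀ v, max ((DcA (D := D) (hN := hN) hNt).lg x (v, t)) 0 -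
      C * (DcA (D := D) (hN := hN) hNt).one (v, t) ≤ 0 := by
    intro v
    have h4 : (DcA (D := D) (hN := hN) hNt).lg x (v, t) ≤ C * N t := by
      show Real.log (D.av v (rep (vl D 𝒰 N hN x) t)) ≤ C * N t
      have h5 := h2 v
      rcases (D.av_nonneg v (rep (vl D 𝒰 N hN x) t)).eq_or_lt with h6 | h6
      · rw [← h6, Real.log_zero]
        have := hN t
        positivity
      · rw [← Real.log_exp (C * N t)]
        exact Real.log_le_log h6 h5
    have h5 : 0 ≤ C * N t := by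
      have := hN t
      positivity
    have h6 : (DcA (D := D) (hN := hN) hNt).one (v, t) = N t := rfl
    rw [h6]
    have := max_le h4 h5
    linarith
  refine (Finset.sum_nonpos fun v _ => h3 v).trans ?_
  have := hN t
  positivity

/-- values of integral germs in the field of germs of complex numbers -/
noncomputable def thA (D : PD M) (𝒰 : Ultrafilter ℕ) (N : ℕ → ℝ) (hN : ∀ t, 1 ≤ N t)
    (φ : M →+* ℂ) : RA D 𝒰 N hN →+* FV.GC ℂ ℕ 𝒰 where
  toFun x := FV.gc 𝒰 fun t => φ (rep (vl D 𝒰 N hN x) t)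
  map_one' := by
    rw [← map_one (FV.gc 𝒰), FV.gc_eq]
    filter_upwards [Pool.Agent.Y742.AR.rep_one (K := M) (𝒰 := 𝒰)] with t h
    rw [vl_one, h, map_one]
    rfl
  map_mul' x y := by
    rw [← map_mul (FV.gc 𝒰), FV.gc_eq]
    filter_upwards [Pool.Agent.Y742.AR.rep_mul (vl D 𝒰 N hN x) (vl D 𝒰 N hN y)] with t h
    rw [vl_mul, h, map_mul]
    rfl
  map_zero' := by
    rw [FV.gc_zero]
    filter_upwards [Pool.Agent.Y742.AR.rep_zero (K := M) (𝒰 := 𝒰)] with t h
    rw [vl_zero, h, map_zero]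
  map_add' x y := by
    rw [← map_add (FV.gc 𝒰), FV.gc_eq]
    filter_upwards [Pool.Agent.Y742.AR.rep_add (vl D 𝒰 N hN x) (vl D 𝒰 N hN y)] with t h
    rw [vl_add, h, map_add]
    rfl

theorem thA_apply (φ : M →+* ℂ) (x : RA D 𝒰 N hN) :
    thA D 𝒰 N hN φ x = FV.gc 𝒰 fun t => φ (rep (vl D 𝒰 N hN x) t) := rfl

theorem thA_inj (φ : M →+* ℂ) : Function.Injective (thA D 𝒰 N hN φ) := by
  rw [injective_iff_map_eq_zero]
  intro x hx
  by_contra h0
  rw [thA_apply, FV.gc_zero] at hx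
  have h1 : vl D 𝒰 N hN x ≠ 0 := fun h => h0 (vl_inj h)
  obtain ⟨t, h2, h3⟩ := (hx.and (Pool.Agent.Y742.AR.rep_ne _ h1)).exists
  exact h3 ((map_eq_zero φ).1 h2)

/-- **The alternative for sequences of integral points.** -/
theorem seqA (D : PD M) (𝒰 : Ultrafilter ℕ) (φ : M →+* ℂ) {n : ℕ} (x : ℕ → Fin n → M)
    (hx : ∀ t i, D.TInt (x t i)) (U A : Finset (Fin n)) {ι : Type} [Finite ι]
    (F : ι → MvPolynomial (Fin n) M) (hF : ∀ t l, aeval (x t) (F l) = 0)
    (hU : ∀ i ∈ U, ∃ B : MvPolynomial (Fin n) M, ∀ t, aeval (x t) B * x t i = 1)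
    (hNt : Tendsto (fun t => ∑ v, ∑ i, max (Real.log (D.av v (x t i))) 0) (𝒰 : Filter ℕ) atTop)
    (hA : ∀ i ∈ A, ∀ ε : ℝ, 0 < ε → ∀ᶠ t in (𝒰 : Filter ℕ),
      ∑ v, max (Real.log (D.av v (x t i))) 0 ≤
        ε * ∑ v, ∑ i, max (Real.log (D.av v (x t i))) 0) :
    ∀ᶠ t in (𝒰 : Filter ℕ),
      (∃ z' : Fin n → ℂ, (∀ l, eval₂ φ z' (F l) = 0) ∧
        (∀ i ∈ U ∪ A, z' i = φ (x t i)) ∧ z' ≠ fun i => φ (x t i)) ∨
      ∃ v : ℂ → Fin n → ℂ, (∀ j, Laur fun s => v s j) ∧
        (∀ l s, s ≠ 0 → eval₂ φ (v s) (F l) = 0) ∧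
        (∀ i ∈ A, ∀ s, s ≠ 0 → v s i = φ (x t i)) ∧ (v 1 = fun i => φ (x t i)) ∧
          ∃ j, v 2 j ≠ v 1 j := by
  classical
  let s : ℕ → ℝ := fun t => ∑ v, ∑ i, max (Real.log (D.av v (x t i))) 0
  have hs0 : ∀ t, 0 ≤ s t := fun t =>
    Finset.sum_nonneg fun _ _ => Finset.sum_nonneg fun _ _ => le_max_right _ _
  let N : ℕ → ℝ := fun t => 1 + s t
  have hN : ∀ t, 1 ≤ N t := fun t => by
    have := hs0 t
    simp only [N]
    linarith
  have hNt' : Tendsto N (𝒰 : Filter ℕ) atTop := tendsto_atTop_add_const_left _ 1 hNt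
  have hle : ∀ v t i, max (Real.log (D.av v (x t i))) 0 ≤ N t := by
    intro v t i
    have h1 : max (Real.log (D.av v (x t i))) 0 ≤ ∑ i, max (Real.log (D.av v (x t i))) 0 :=
      Finset.single_le_sum (f := fun i => max (Real.log (D.av v (x t i))) 0)
        (fun _ _ => le_max_right _ _) (Finset.mem_univ i)
    have h2 : ∑ i, max (Real.log (D.av v (x t i))) 0 ≤ s t :=
      Finset.single_le_sum (f := fun v => ∑ i, max (Real.log (D.av v (x t i))) 0)
        (fun _ _ => Finset.sum_nonneg fun _ _ => le_max_right _ _) (Finset.mem_univ v)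
    simp only [N]
    linarith
  have hrep : ∀ i, ∀ᶠ t in (𝒰 : Filter ℕ), rep (gm 𝒰 fun t => x t i) t = x t i := fun i =>
    rep_gm _
  have hmem : ∀ i, gm 𝒰 (fun t => x t i) ∈ R0 D 𝒰 N hN := by
    intro i
    refine ⟨fun t => x t i, rfl, ⟨1, one_ne_zero, Eventually.of_forall fun t => ?_⟩, 1,
      zero_le_one, Eventually.of_forall fun t v => ?_⟩
    · have h1 : ((1 : 𝓞 M) : M) * x t i = x t i := one_mul (x t i)
      show D.TInt (((1 : 𝓞 M) : M) * x t i)
      rw [h1]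
      exact hx t i
    · rw [one_mul]
      show D.av v (x t i) ≤ Real.exp (N t)
      by_cases h0 : x t i = 0
      · rw [h0, D.av_zero]
        exact (Real.exp_pos _).le
      · rw [← Real.log_le_iff_le_exp (D.av_pos v _ h0)]
        exact (le_max_left _ _).trans (hle v t i)
  let y : Fin n → RA D 𝒰 N hN := fun i => (⟨_, hmem i⟩ : R0 D 𝒰 N hN)
  have hvl : ∀ i, vl D 𝒰 N hN (y i) = gm 𝒰 fun t => x t i := fun i => rfl
  have hy : ∀ i, thA D 𝒰 N hN φ (y i) = FV.gc 𝒰 fun t => φ (x t i) := by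
    intro i
    rw [thA_apply, FV.gc_eq]
    filter_upwards [hrep i] with t h
    rw [hvl, h]
  have hcomp : (thA D 𝒰 N hN φ).comp (algebraMap M (RA D 𝒰 N hN)) =
      (FV.gc 𝒰).comp ((Pi.constRingHom ℕ ℂ).comp φ) := by
    refine RingHom.ext fun c => ?_
    show thA D 𝒰 N hN φ (algebraMap M (RA D 𝒰 N hN) c) = FV.gc 𝒰 fun _ => φ c
    rw [thA_apply, FV.gc_eq]
    filter_upwards [Pool.Agent.Y742.AR.rep_cg (K := M) (𝒰 := 𝒰) c] with t h
    rw [vl_const, h]
  have hval : ∀ Q : MvPolynomial (Fin n) M, thA D 𝒰 N hN φ (aeval y Q) =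
      FV.gc 𝒰 fun t => φ (aeval (x t) Q) := by
    intro Q
    have h1 : thA D 𝒰 N hN φ (aeval y Q) =
        eval₂ ((thA D 𝒰 N hN φ).comp (algebraMap M (RA D 𝒰 N hN)))
          (fun i => thA D 𝒰 N hN φ (y i)) Q := by
      rw [aeval_def]
      exact hom_eval₂ _ _ _ _
    rw [h1, hcomp]
    have h2 : (fun i => thA D 𝒰 N hN φ (y i)) = fun i => FV.gc 𝒰 fun t => φ (x t i) := funext hy
    rw [h2, FV.gc_eval 𝒰 φ (fun t i => φ (x t i))]
    congr 1
    funext t
    have h3 := hom_eval₂ Q (algebraMap M M) φ (x t)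
    rw [aeval_def, h3]
    rfl
  have hyF : ∀ l, aeval y (F l) = 0 := by
    intro l
    apply thA_inj φ
    rw [hval, map_zero, FV.gc_zero]
    exact Eventually.of_forall fun t => by rw [hF, map_zero]
  have hyU : ∀ i ∈ U, IsUnit (y i) := by
    intro i hi
    obtain ⟨B, hB⟩ := hU i hi
    refine IsUnit.of_mul_eq_one_right (aeval y B) ?_
    apply thA_inj φ
    rw [map_mul, map_one, hval, hy, ← map_mul, ← map_one (FV.gc 𝒰), FV.gc_eq]
    refine Eventually.of_forall fun t => ?_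
    show φ (aeval (x t) B) * φ (x t i) = 1
    rw [← map_mul, hB, map_one]
  let D0 := DcA (D := D) (hN := hN) hNt'
  have hlg : ∀ i, ∀ᶠ t in (𝒰 : Filter ℕ), ∀ v,
      max (D0.lg (y i) (v, t)) 0 = max (Real.log (D.av v (x t i))) 0 := by
    intro i
    filter_upwards [hrep i] with t ht v
    show max (Real.log (D.av v (rep (vl D 𝒰 N hN (y i)) t))) 0 = _
    rw [hvl, ht]
  have hyA : ∀ i ∈ A, y i ∈ SS D0 := by
    intro i hi
    rw [mem_SS]
    intro ε hε
    filter_upwards [hA i hi ε hε, hlg i] with t g1 g2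
    have h1 : ∑ v, max (D0.lg (y i) (v, t)) 0 = ∑ v, max (Real.log (D.av v (x t i))) 0 :=
      Finset.sum_congr rfl fun v _ => g2 v
    refine h1.trans_le (g1.trans ?_)
    have h2 : s t ≤ N t := by
      simp only [N]
      linarith
    exact mul_le_mul_of_nonneg_left h2 hε.le
  let V : ℝ := Fintype.card ((M ≃ₐ[ℚ] M) ⊕ Fin D.s)
  have hone : ∃ C : ℝ, 0 ≤ C ∧ D0.Neg (fun ω => D0.one ω - C * ∑ i, max (D0.lg (y i) ω) 0) := by
    refine ⟨V, Nat.cast_nonneg _, fun ε hε => ?_⟩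
    filter_upwards [(eventually_all).2 hlg, hNt'.eventually_ge_atTop (V / ε)] with t g1 ht
    rw [div_le_iff₀ hε] at ht
    have h1 : ∀ v, D0.one (v, t) - V * ∑ i, max (D0.lg (y i) (v, t)) 0 =
        N t - V * ∑ i, max (Real.log (D.av v (x t i))) 0 := by
      intro v
      have h2 : D0.one (v, t) = N t := rfl
      rw [h2]
      congr 2
      exact Finset.sum_congr rfl fun i _ => g1 i v
    rw [Finset.sum_congr rfl fun v _ => h1 v, Finset.sum_sub_distrib, ← Finset.mul_sum,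
      Finset.sum_const, nsmul_eq_mul, Finset.card_univ]
    have h2 : (∑ v, ∑ i, max (Real.log (D.av v (x t i))) 0) = N t - 1 := by
      simp only [N]
      show s t = 1 + s t - 1
      ring
    rw [h2]
    have h3 : ((Fintype.card ((M ≃ₐ[ℚ] M) ⊕ Fin D.s) : ℕ) : ℝ) = V := rfl
    rw [h3]
    linarith
  have hchar : CharZero (FV.GC ℂ ℕ 𝒰) := by
    refine charZero_of_injective_ringHom (f := (FV.gc 𝒰).comp (Pi.constRingHom ℕ ℂ)) ?_
    exact RingHom.injective _
  rcases Pool.Agent.N754.MT.main D0 (thA D 𝒰 N hN φ) (thA_inj φ) (szdA hNt') U A F y hyF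
    hyU hyA hone (not_neg_oneA hNt') with h | h
  · rw [hcomp] at h
    simp only [hy] at h
    have h1 := FV.gc_second 𝒰 φ (U ∪ A) F (fun t i => φ (x t i)) h
    filter_upwards [h1] with t ht
    exact Or.inl ht
  · rw [hcomp] at h
    simp only [hy] at h
    have h1 := FV.gc_curve 𝒰 φ A F (fun t i => φ (x t i)) h
    filter_upwards [h1] with t ht
    exact Or.inr ht

end Pool.Agent.W2helper42.RB
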