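import Mathlib
import Pool.Agent.N754.LT.Ext
import Pool.Agent.W2helper42.RB.Dfs
import Pool.Agent.W2helper42.RB.Hgt
import Pool.Agent.W2helper42.RB.SeqA

/-!
The condition on maps from the punctured line implies the arithmetic bound.
-/

set_option autoImplicit false

namespace Pool.Agent.W2helper42.RB

open MvPolynomial IsDedekindDomain Filter
open Pool.Agent.H159R3.Exp
open Pool.Agent.Y742.SF
open Pool.Agent.N754.LT (exists_big ext_int unit_cert)
open scoped NumberField

/-- the condition on maps from the punctured line implies the arithmetic bound -/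
theorem integral_of_vert {K : Type} [Field K] [NumberField K] {ι κ : Type} {n : ℕ} (σ : K →+* ℂ)
    [Finite ι] (F : ι → MvPolynomial (Fin n) (𝓞 K)) (G : κ → MvPolynomial (Fin n) (𝓞 K))
    (A U : Finset (Fin n)) (hU : UnitsOn σ F U) (hcov : Covered σ F G A U)
    (h : VertGmIn σ F G A) : IntegralBound F G A := by
  classical
  intro L _ _ _ S hS
  by_contra hcon
  push Not at hcon
  choose x hx1 hx2 using fun t : ℕ => hcon (t : ℝ)
  obtain ⟨M, _, _, _, hgal, hi⟩ := exists_big L
  obtain ⟨S', hS', hint⟩ := ext_int L M S hS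
  obtain ⟨D, hD⟩ := exists_PD hi S' hS'
  let : Algebra K M := ((algebraMap L M).comp (algebraMap K L)).toAlgebra
  let : Algebra K ℂ := σ.toAlgebra
  have halg : Algebra.IsAlgebraic K M := Algebra.IsAlgebraic.tower_top (K := ℚ) K
  let φ0 : M →ₐ[K] ℂ := IsAlgClosed.lift
  let φ : M →+* ℂ := φ0
  let ρ : 𝓞 K →+* M := (algebraMap K M).comp (algebraMap (𝓞 K) K)
  have hρ : φ.comp ρ = σ.comp (algebraMap (𝓞 K) K) := by
    refine RingHom.ext fun c => ?_
    exact φ0.commutes (algebraMap (𝓞 K) K c)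
  have hρL : ρ = (algebraMap L M).comp ((algebraMap K L).comp (algebraMap (𝓞 K) K)) := rfl
  let y : ℕ → Fin n → M := fun t i => algebraMap L M (x t i)
  have hyT : ∀ t i, D.TInt (y t i) := by
    intro t i w hw
    have h1 := hint _ ((hx1 t).1.1 i)
    refine (mem_integer_iff S' _).1 h1 w fun hmem => ?_
    obtain ⟨v, hv⟩ := hD w hmem
    exact hw v hv
  have hev : ∀ t (P : MvPolynomial (Fin n) (𝓞 K)), eval₂ ρ (y t) P =
      algebraMap L M (eval₂ ((algebraMap K L).comp (algebraMap (𝓞 K) K)) (x t) P) := by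
    intro t P
    rw [hom_eval₂, hρL]
  let FM : ι → MvPolynomial (Fin n) M := fun l => map ρ (F l)
  have hae : ∀ (z : Fin n → M) (P : MvPolynomial (Fin n) (𝓞 K)),
      aeval z (map ρ P) = eval₂ ρ z P := by
    intro z P
    rw [aeval_def, eval₂_map]
    rfl
  have hyF : ∀ t l, aeval (y t) (FM l) = 0 := by
    intro t l
    rw [hae, hev, (hx1 t).1.2 l, map_zero]
  have hyU : ∀ i ∈ U, ∃ B : MvPolynomial (Fin n) M, ∀ t, aeval (y t) B * y t i = 1 := by
    intro i hi
    obtain ⟨B, hB⟩ := unit_cert σ (fun l => map (algebraMap (𝓞 K) K) (F l)) i (fun z hz =>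
      hU z (fun l => by
        have := hz l
        rw [eval₂_map] at this
        exact this) i hi)
    refine ⟨map (algebraMap K M) B, fun t => ?_⟩
    rw [aeval_map_algebraMap]
    have h1 : Ideal.span (Set.range fun l => map (algebraMap (𝓞 K) K) (F l)) ≤
        RingHom.ker (aeval (y t) : MvPolynomial (Fin n) K →ₐ[K] M) := by
      rw [Ideal.span_le]
      rintro _ ⟨l, rfl⟩
      show aeval (y t) (map (algebraMap (𝓞 K) K) (F l)) = 0
      rw [aeval_def, eval₂_map]
      have h2 := hyF t l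
      rw [hae] at h2
      exact h2
    have h2 : aeval (y t) (B * X i - 1) = 0 := h1 hB
    rw [map_sub, map_mul, aeval_X, map_one] at h2
    linear_combination h2
  let 𝒰 : Ultrafilter ℕ := hyperfilter ℕ
  have h𝒰 : (𝒰 : Filter ℕ) ≤ atTop := Nat.hyperfilter_le_atTop
  let d : ℝ := Module.finrank L M
  have hd : 0 < d := by
    have : 0 < Module.finrank L M := Module.finrank_pos
    exact Nat.cast_pos.2 this
  have hht : ∀ t i, ∑ v, max (Real.log (D.av v (y t i))) 0 = d * Height.logHeight₁ (x t i) := by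
    intro t i
    rw [ht_av D _ (hyT t i), ht_ext]
  let s : ℕ → ℝ := fun t => ∑ j, Height.logHeight₁ (x t j)
  let a : ℕ → ℝ := fun t => ∑ i ∈ A, Height.logHeight₁ (x t i)
  have ha0 : ∀ t, 0 ≤ a t := fun t => Finset.sum_nonneg fun i _ => Height.zero_le_logHeight₁ _
  have hs : ∀ t : ℕ, (t : ℝ) * (1 + a t) < s t := hx2
  have hsum : ∀ t, ∑ v, ∑ i, max (Real.log (D.av v (y t i))) 0 = d * s t := by
    intro t
    rw [Finset.sum_comm, Finset.mul_sum]
    exact Finset.sum_congr rfl fun i _ => hht t i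
  have hNt : Tendsto (fun t => ∑ v, ∑ i, max (Real.log (D.av v (y t i))) 0) (𝒰 : Filter ℕ)
      atTop := by
    have h1 : Tendsto (fun t : ℕ => d * (t : ℝ)) (𝒰 : Filter ℕ) atTop :=
      (tendsto_natCast_atTop_atTop.mono_left h𝒰).const_mul_atTop hd
    refine tendsto_atTop_mono (fun t => ?_) h1
    rw [hsum]
    have h2 := hs t
    have h3 : (t : ℝ) ≤ t * (1 + a t) := le_mul_of_one_le_right (Nat.cast_nonneg t) (by
      have := ha0 t
      linarith)
    exact mul_le_mul_of_nonneg_left (by linarith) hd.le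
  have hA : ∀ i ∈ A, ∀ ε : ℝ, 0 < ε → ∀ᶠ t in (𝒰 : Filter ℕ),
      ∑ v, max (Real.log (D.av v (y t i))) 0 ≤
        ε * ∑ v, ∑ i, max (Real.log (D.av v (y t i))) 0 := by
    intro i hi ε hε
    obtain ⟨m, hm⟩ := exists_nat_gt (1 / ε)
    filter_upwards [h𝒰 (eventually_ge_atTop m)] with t ht
    rw [hsum, hht]
    have h1 : Height.logHeight₁ (x t i) ≤ a t :=
      Finset.single_le_sum (f := fun i => Height.logHeight₁ (x t i))
        (fun i _ => Height.zero_le_logHeight₁ _) hi
    have h2 : (m : ℝ) ≤ t := by exact_mod_cast ht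
    have h3 := ha0 t
    have h4 : 1 / ε * (1 + a t) ≤ t * (1 + a t) :=
      mul_le_mul_of_nonneg_right (hm.le.trans h2) (by linarith)
    have h5 := h4.trans_lt (hs t)
    rw [div_mul_eq_mul_div, one_mul, div_lt_iff₀ hε] at h5
    have h6 : Height.logHeight₁ (x t i) ≤ ε * s t := by linarith
    calc d * Height.logHeight₁ (x t i) ≤ d * (ε * s t) := mul_le_mul_of_nonneg_left h6 hd.le
      _ = ε * (d * s t) := by ring
  have hmain := seqA D 𝒰 φ y hyT U A FM hyF hyU hNt hA
  obtain ⟨t, ht⟩ := hmain.exists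
  let z : Fin n → ℂ := fun i => φ (y t i)
  have hzev : ∀ P : MvPolynomial (Fin n) (𝓞 K),
      eval₂ (σ.comp (algebraMap (𝓞 K) K)) z P = φ (eval₂ ρ (y t) P) := by
    intro P
    rw [hom_eval₂, hρ]
  have hzF : z ∈ CPts σ F := by
    intro l
    rw [hzev, hev, (hx1 t).1.2 l, map_zero, map_zero]
  have hzG : z ∉ CPts σ G := by
    intro hmem
    apply (hx1 t).2
    refine ⟨(hx1 t).1.1, fun l => ?_⟩
    have h1 := hmem l
    rw [hzev, hev] at h1
    exact (map_eq_zero _).1 ((map_eq_zero _).1 h1)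
  have hconv : ∀ (w : Fin n → ℂ) l, eval₂ φ w (FM l) =
      eval₂ (σ.comp (algebraMap (𝓞 K) K)) w (F l) := by
    intro w l
    rw [← hρ]
    exact eval₂_map _ _ _ _
  rcases ht with ⟨z', h3, h4, h5⟩ | ⟨v, h3, h4, h5, h6, j, h7⟩
  · obtain ⟨v, hv, hv1⟩ := hcov z hzF hzG z' (fun l => by
      rw [← hconv]
      exact h3 l) h4 h5
    have h6 := h v hv 1 one_ne_zero
    rw [hv1] at h6
    exact hzG h6
  · have hv : IsVertGm σ F A v := by
      refine ⟨h3, fun s hs l => ?_, fun i hi s hs => ?_, 2, two_ne_zero, fun h8 => h7 ?_⟩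
      · rw [← hconv]
        exact h4 l s hs
      · rw [h5 i hi s hs, h6]
      · rw [h8]
    have h8 := h v hv 1 one_ne_zero
    rw [h6] at h8
    exact hzG h8

end Pool.Agent.W2helper42.RB
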