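import Mathlib
import Pool.Agent.H159R3.NV.StepB
import Pool.Agent.H159R3.NV.PoissonDiff

/-!
Growth of entire functions: lower bound for the mean of `log⁺`, and polynomials.
-/

set_option autoImplicit false

namespace Pool.Agent.W2helper42.RB

open Set Filter Topology Metric Real ValueDistribution
open Asymptotics
open Pool.Agent.H159R3.NV

theorem L_le_prox {f : ℂ → ℂ} (hf : Differentiable ℂ f) (r : ℝ) :
    L f r ≤ proximity f ⊤ r := by
  rw [proximity_top]
  exact Real.circleAverage_mono (ci_log (mero_of_diff hf) r) (ci_posLog (mero_of_diff hf) r)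
    fun z _ => log_le_posLog _

theorem prox_add_const {f : ℂ → ℂ} (hf : Differentiable ℂ f) (c : ℂ) (r : ℝ) :
    proximity (fun z => f z + c) ⊤ r ≤ proximity f ⊤ r + (log⁺ ‖c‖ + Real.log 2) := by
  have hc : Differentiable ℂ fun z => f z + c := hf.add_const c
  rw [proximity_top, proximity_top]
  have e1 : circleAverage (fun z => log⁺ ‖f z‖ + (log⁺ ‖c‖ + Real.log 2)) 0 r =
      circleAverage (fun z => log⁺ ‖f z‖) 0 r + (log⁺ ‖c‖ + Real.log 2) := by
    rw [circleAverage_fun_add (ci_posLog (mero_of_diff hf) r) (circleIntegrable_const _ _ _),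
      circleAverage_const]
  have e2 := Real.circleAverage_mono (c := 0) (R := r)
    (f₁ := fun z => log⁺ ‖f z + c‖) (f₂ := fun z => log⁺ ‖f z‖ + (log⁺ ‖c‖ + Real.log 2))
    (ci_posLog (mero_of_diff hc) r)
    ((ci_posLog (mero_of_diff hf) r).add (circleIntegrable_const _ _ _)) (fun z _ => by
      have h1 : log⁺ ‖f z + c‖ ≤ log⁺ ‖f z‖ + log⁺ ‖c‖ + Real.log 2 := by
        have := Real.posLog_norm_add_le (f z) c
        linarith
      linarith)
  rw [← e1]
  exact e2

/-- nonconstant entire functions grow at least like the logarithm -/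
theorem prox_lower {f : ℂ → ℂ} (hf : Differentiable ℂ f) (h : ∃ z, f z ≠ f 0) :
    ∃ C : ℝ, ∀ r, 1 ≤ r → Real.log r - C ≤ proximity f ⊤ r := by
  obtain ⟨z0, hz0⟩ := h
  have hu : Differentiable ℂ fun z => f z + -f 0 := hf.add_const _
  have hu0 : (fun z => f z + -f 0) 0 = 0 := by simp
  let g := dslope (fun z => f z + -f 0) 0
  have hg : Differentiable ℂ g := dslope_diff hu 0
  have hfac : ∀ z, f z + -f 0 = (z - 0) * g z := fun z =>
    dslope_fac (f := fun z => f z + -f 0) (a := 0) hu0 z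
  have hgz : g z0 ≠ 0 := by
    intro h1
    have h2 := hfac z0
    rw [h1, mul_zero] at h2
    exact hz0 (by linear_combination h2)
  refine ⟨-(L g 1) + (log⁺ ‖-f 0‖ + Real.log 2), fun r hr => ?_⟩
  have h1 : L (fun z => f z + -f 0) r = L (fun z => z - 0) r + L g r := by
    have h2 := L_mul (f := fun z => z - 0) (g := g) (differentiable_id.sub_const 0) hg
      (x := 1) (y := z0) (by simp) hgz (R := r) (by linarith)
    rw [← h2]
    congr 1
    funext z
    exact hfac z
  rw [L_lin (by linarith) (by simp; linarith)] at h1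
  have h3 := L_mono hg (r := 1) (R := r) one_pos hr
  have h4 := L_le_prox hu r
  have h5 := prox_add_const hf (-f 0) r
  linarith

theorem P_len {u : ℂ → ℂ} (hu : Differentiable ℂ u) (h0 : u 0 = 1) {C : ℝ}
    (hS : ∀ R0 : ℝ, ∃ R, R0 ≤ R ∧ proximity u ⊤ R ≤ C * (1 + Real.log R))
    {Z : List ℂ} {k : ℂ → ℂ} (hk : Differentiable ℂ k) (hfac : ∀ z, u z = P Z z * k z) :
    (Z.length : ℝ) ≤ 4 * max C 0 := by
  obtain ⟨ρ, hρ1, hρ⟩ : ∃ ρ : ℝ, 1 ≤ ρ ∧ ∀ a ∈ Z, ‖a‖ ≤ ρ := by
    refine ⟨1 + (Z.map fun a => ‖a‖).sum, ?_, fun a ha => ?_⟩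
    · have : 0 ≤ (Z.map fun a => ‖a‖).sum := List.sum_nonneg (by
        intro x hx
        obtain ⟨a, -, rfl⟩ := List.mem_map.1 hx
        exact norm_nonneg a)
      linarith
    · have h1 : ‖a‖ ≤ (Z.map fun a => ‖a‖).sum := by
        apply List.single_le_sum (l := Z.map fun a => ‖a‖)
        · intro x hx
          obtain ⟨b, -, rfl⟩ := List.mem_map.1 hx
          exact norm_nonneg b
        · exact List.mem_map.2 ⟨a, ha, rfl⟩
      linarith
  obtain ⟨R, hR1, hR2⟩ := hS (max (ρ ^ 2) (Real.exp 1) + 1)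
  have hR3 : ρ ^ 2 < R := by
    have := le_max_left (ρ ^ 2) (Real.exp 1)
    linarith
  have hR4 : Real.exp 1 < R := by
    have := le_max_right (ρ ^ 2) (Real.exp 1)
    linarith
  have hR0 : 0 < R := (Real.exp_pos 1).trans hR4
  have hρR : ρ < R := by nlinarith
  have hlog : 1 ≤ Real.log R := by
    rw [← Real.log_exp 1]
    exact Real.log_le_log (Real.exp_pos 1) hR4.le
  have hu0 : P Z 0 * k 0 ≠ 0 := by
    rw [← hfac, h0]
    exact one_ne_zero
  have h1 := count_le Z k hk (by linarith) hρR hρ hu0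
  have h2 : (fun z => P Z z * k z) = u := funext fun z => (hfac z).symm
  rw [h2, ← hfac, h0, norm_one, Real.log_one, sub_zero] at h1
  have h3 := L_le_prox hu R
  have h4 : Real.log R / 2 ≤ Real.log (R / ρ) := by
    rw [Real.log_div hR0.ne' (by linarith)]
    have h5 : 2 * Real.log ρ ≤ Real.log R := by
      have : Real.log (ρ ^ 2) ≤ Real.log R := Real.log_le_log (by positivity) hR3.le
      rw [Real.log_pow] at this
      push_cast at this
      exact this
    linarith
  have h6 : (Z.length : ℝ) * (Real.log R / 2) ≤ (Z.length : ℝ) * Real.log (R / ρ) :=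
    mul_le_mul_of_nonneg_left h4 (Nat.cast_nonneg _)
  have h7 : C * (1 + Real.log R) ≤ max C 0 * (2 * Real.log R) :=
    (mul_le_mul_of_nonneg_right (le_max_left C 0) (by linarith)).trans
      (mul_le_mul_of_nonneg_left (by linarith) (le_max_right C 0))
  have h8 : (Z.length : ℝ) * (Real.log R / 2) ≤ (4 * max C 0) * (Real.log R / 2) := by
    linarith
  exact le_of_mul_le_mul_right h8 (by linarith)

theorem P_poly (Z : List ℂ) : ∃ p : Polynomial ℂ, ∀ z, P Z z = p.eval z := by
  induction Z with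
  | nil => exact ⟨1, fun z => by simp [P_nil]⟩
  | cons a Z ih =>
    obtain ⟨p, hp⟩ := ih
    exact ⟨(Polynomial.X - Polynomial.C a) * p, fun z => by rw [P_cons, hp]; simp⟩

/-- **Slowly growing entire functions are polynomials.** -/
theorem poly_of_slow {f : ℂ → ℂ} (hf : Differentiable ℂ f) {C : ℝ}
    (hS : ∀ R0 : ℝ, ∃ R, R0 ≤ R ∧ proximity f ⊤ R ≤ C * (1 + Real.log R)) :
    ∃ p : Polynomial ℂ, ∀ z, f z = p.eval z := by
  classical
  -- normalise
  let c : ℂ := 1 - f 0
  let u : ℂ → ℂ := fun z => f z + c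
  have hu : Differentiable ℂ u := hf.add_const c
  have hu0 : u 0 = 1 := by simp [u, c]
  let C1 : ℝ := max C 0 + (log⁺ ‖c‖ + Real.log 2)
  have hlc : 0 ≤ log⁺ ‖c‖ + Real.log 2 := add_nonneg posLog_nonneg (Real.log_nonneg (by norm_num))
  have hC1 : 0 ≤ C1 := add_nonneg (le_max_right C 0) hlc
  have hSu : ∀ R0 : ℝ, ∃ R, R0 ≤ R ∧ proximity u ⊤ R ≤ C1 * (1 + Real.log R) := by
    intro R0
    obtain ⟨R, h1, h2⟩ := hS (max R0 1)
    have hR1 : 1 ≤ R := (le_max_right _ _).trans h1
    have hl := Real.log_nonneg hR1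
    refine ⟨R, (le_max_left _ _).trans h1, ?_⟩
    have h3 := prox_add_const hf c R
    have h4 : C * (1 + Real.log R) ≤ max C 0 * (1 + Real.log R) :=
      mul_le_mul_of_nonneg_right (le_max_left C 0) (by linarith)
    have h5 : (log⁺ ‖c‖ + Real.log 2) * 1 ≤ (log⁺ ‖c‖ + Real.log 2) * (1 + Real.log R) :=
      mul_le_mul_of_nonneg_left (by linarith) hlc
    have h6 : C1 * (1 + Real.log R) = max C 0 * (1 + Real.log R) +
      (log⁺ ‖c‖ + Real.log 2) * (1 + Real.log R) := add_mul _ _ _
    show proximity (fun z => f z + c) ⊤ R ≤ _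
    linarith
  -- a factorization with the largest number of factors
  let Q : ℕ → Prop := fun m => ∃ (Z : List ℂ) (k : ℂ → ℂ), Differentiable ℂ k ∧
    (∀ z, u z = P Z z * k z) ∧ Z.length = m
  have hQ0 : Q 0 := ⟨[], u, hu, fun z => by rw [P_nil, one_mul], rfl⟩
  obtain ⟨B, hB⟩ := exists_nat_gt (4 * max C1 0)
  have hQB : ∀ m, Q m → m ≤ B := by
    rintro m ⟨Z, k, hk, hfac, rfl⟩
    have h1 := P_len hu hu0 hSu hk hfac
    exact_mod_cast (h1.trans hB.le)
  obtain ⟨m, hm, hmax⟩ : ∃ m, Q m ∧ ∀ m', Q m' → m' ≤ m := by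
    refine ⟨Nat.findGreatest Q B, Nat.findGreatest_spec (Nat.zero_le B) hQ0, fun m' h => ?_⟩
    exact Nat.le_findGreatest (hQB m' h) h
  obtain ⟨Z, k, hk, hfac, hlen⟩ := hm
  have hkne : ∀ z, k z ≠ 0 := by
    intro a ha
    have h1 : Q (m + 1) := by
      refine ⟨a :: Z, dslope k a, dslope_diff hk a, fun z => ?_, by simp [hlen]⟩
      rw [P_cons, hfac, dslope_fac ha z]
      ring
    have := hmax _ h1
    omega
  have hP0 : P Z 0 ≠ 0 := by
    intro h
    have h1 := hfac 0
    rw [h, zero_mul, hu0] at h1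
    exact one_ne_zero h1
  -- the mean of `|log ‖k‖|`
  obtain ⟨ρ, hρ1, hρ⟩ : ∃ ρ : ℝ, 1 ≤ ρ ∧ ∀ a ∈ Z, ‖a‖ ≤ ρ := by
    refine ⟨1 + (Z.map fun a => ‖a‖).sum, ?_, fun a ha => ?_⟩
    · have : 0 ≤ (Z.map fun a => ‖a‖).sum := List.sum_nonneg (by
        intro x hx
        obtain ⟨a, -, rfl⟩ := List.mem_map.1 hx
        exact norm_nonneg a)
      linarith
    · have h1 : ‖a‖ ≤ (Z.map fun a => ‖a‖).sum := by
        apply List.single_le_sum (l := Z.map fun a => ‖a‖)
        · intro x hx
          obtain ⟨b, -, rfl⟩ := List.mem_map.1 hx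
          exact norm_nonneg b
        · exact List.mem_map.2 ⟨a, ha, rfl⟩
      linarith
  let n : ℝ := Z.length
  have hn : 0 ≤ n := Nat.cast_nonneg _
  have hmean : ∀ R, ρ ≤ R → proximity u ⊤ R ≤ C1 * (1 + Real.log R) →
      circleAverage (fun z => |Real.log ‖k z‖|) 0 R ≤ (2 * C1 + 4 * n) * (1 + Real.log R) := by
    intro R hR h1
    have hR1 : 1 ≤ R := hρ1.trans hR
    have hl := Real.log_nonneg hR1
    have hR0 : R ≠ 0 := by linarith
    have h2 : circleAverage (fun z => |Real.log ‖u z‖|) 0 R ≤ 2 * (C1 * (1 + Real.log R)) := by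
      rw [avg_abs_log (mero_of_diff hu)]
      have h3 := jensen_entire (by linarith : 0 < R) hu (by rw [hu0]; exact one_ne_zero)
      rw [hu0, norm_one, Real.log_one] at h3
      rw [proximity_top] at h1
      linarith
    have h3 := avg_abs_P Z hR1 fun a ha => (hρ a ha).trans hR
    have h4 : circleAverage (fun z => |Real.log ‖k z‖|) 0 R ≤
        circleAverage (fun z => |Real.log ‖u z‖| + |Real.log ‖P Z z‖|) 0 R := by
      refine avg_le_cod (ci_abs (ci_log (mero_of_diff hk) R))
        ((ci_abs (ci_log (mero_of_diff hu) R)).add (ci_abs (ci_log (mero_of_diff (P_diff Z)) R)))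
        hR0 ?_
      filter_upwards [ne_cod (P_diff Z) hP0 R] with z hz
      have h5 : Real.log ‖k z‖ = Real.log ‖u z‖ - Real.log ‖P Z z‖ := by
        rw [hfac z, norm_mul, Real.log_mul (norm_ne_zero_iff.2 hz) (norm_ne_zero_iff.2 (hkne z))]
        ring
      rw [h5]
      exact abs_sub _ _
    rw [circleAverage_fun_add (ci_abs (ci_log (mero_of_diff hu) R))
      (ci_abs (ci_log (mero_of_diff (P_diff Z)) R))] at h4
    have h6 : Real.log (2 * R) ≤ 1 + Real.log R := by
      rw [Real.log_mul (by norm_num) hR0]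
      have := Real.log_two_lt_d9
      linarith
    have h7 : n * (2 * Real.log (2 * R)) ≤ n * (2 * (1 + Real.log R)) :=
      mul_le_mul_of_nonneg_left (by linarith) hn
    have h8 : 0 ≤ n * (1 + Real.log R) := mul_nonneg hn (by linarith)
    have h9 : (2 * C1 + 4 * n) * (1 + Real.log R) = 2 * (C1 * (1 + Real.log R)) +
      n * (2 * (1 + Real.log R)) + 2 * (n * (1 + Real.log R)) := by ring
    linarith
  -- `k` is constant
  have hconst : ∀ w, ‖k w‖ = ‖k 0‖ := by
    intro w
    have h1 : Real.log ‖k w‖ - Real.log ‖k 0‖ = 0 := by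
      by_contra hne
      have hpos : 0 < |Real.log ‖k w‖ - Real.log ‖k 0‖| := abs_pos.2 hne
      let K : ℝ := 8 * ‖w‖ * (2 * C1 + 4 * n)
      have hK : 0 ≤ K := by positivity
      have hlim : Tendsto (fun R : ℝ => K * ((1 + Real.log R) / R)) atTop (𝓝 0) := by
        have h2 : Tendsto (fun R : ℝ => (1 + Real.log R) / R) atTop (𝓝 0) := by
          have h3 : Tendsto (fun R : ℝ => 1 / R) atTop (𝓝 0) := by
            simpa using tendsto_inv_atTop_zero (𝕜 := ℝ)
          have h4 : Tendsto (fun R : ℝ => Real.log R / R) atTop (𝓝 0) := by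
            have := (Real.isLittleO_log_id_atTop).tendsto_div_nhds_zero
            simpa using this
          have h5 := h3.add h4
          rw [add_zero] at h5
          refine h5.congr fun R => ?_
          rw [add_div]
        have := h2.const_mul K
        rwa [mul_zero] at this
      have hev := hlim.eventually (gt_mem_nhds hpos)
      obtain ⟨R0, hR0⟩ := eventually_atTop.1 hev
      obtain ⟨R, hR1, hR2⟩ := hSu (max R0 (max ρ (2 * ‖w‖)))
      have g1 : R0 ≤ R := (le_max_left _ _).trans hR1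
      have g2 : ρ ≤ R := ((le_max_left _ _).trans (le_max_right _ _)).trans hR1
      have g3 : 2 * ‖w‖ ≤ R := ((le_max_right _ _).trans (le_max_right _ _)).trans hR1
      have hR : 0 < R := by linarith
      have g4 := poisson_diff (k := k) hR (half_pos hR) (fun z _ => hk.analyticAt z)
        (fun z _ => hkne z) (w := w) (z := 0) (by linarith) (by rw [norm_zero]; linarith)
      have g5 := hmean R g2 hR2
      have g6 : 2 * R * ‖w - 0‖ / (R / 2) ^ 2 = 8 * ‖w‖ / R := by
        rw [sub_zero]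
        field_simp
        ring
      rw [g6] at g4
      have g7 : 8 * ‖w‖ / R * circleAverage (fun ζ => |Real.log ‖k ζ‖|) 0 R ≤
          8 * ‖w‖ / R * ((2 * C1 + 4 * n) * (1 + Real.log R)) :=
        mul_le_mul_of_nonneg_left g5 (by positivity)
      have g8 : 8 * ‖w‖ / R * ((2 * C1 + 4 * n) * (1 + Real.log R)) =
          K * ((1 + Real.log R) / R) := by
        simp only [K]
        ring
      have g9 := hR0 R g1
      linarith
    have h2 : Real.log ‖k w‖ = Real.log ‖k 0‖ := by linarith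
    exact Real.log_injOn_pos (mem_Ioi.2 (norm_pos_iff.2 (hkne w)))
      (mem_Ioi.2 (norm_pos_iff.2 (hkne 0))) h2
  have hk0 : ∀ w, k w = k 0 := by
    intro w
    apply hk.apply_eq_apply_of_bounded
    rw [isBounded_iff_forall_norm_le]
    refine ⟨‖k 0‖, ?_⟩
    rintro x ⟨y, rfl⟩
    exact (hconst y).le
  obtain ⟨p, hp⟩ := P_poly Z
  refine ⟨Polynomial.C (k 0) * p - Polynomial.C c, fun z => ?_⟩
  have h1 : f z = u z - c := by simp [u]
  rw [h1, hfac, hk0 z, hp]
  simp [mul_comm]

/-- transcendental entire functions grow faster than the logarithm -/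
theorem log_small {f : ℂ → ℂ} (hf : Differentiable ℂ f)
    (h : ¬ ∃ p : Polynomial ℂ, ∀ z, f z = p.eval z) (C : ℝ) :
    ∀ᶠ r : ℝ in atTop, C * (1 + Real.log r) < proximity f ⊤ r := by
  by_contra hcon
  apply h
  refine poly_of_slow hf (C := C) fun R0 => ?_
  rw [not_eventually, frequently_atTop] at hcon
  obtain ⟨R, hR, h1⟩ := hcon R0
  exact ⟨R, hR, not_lt.1 h1⟩

/-- polynomials grow at most like the logarithm -/
theorem prox_poly (p : Polynomial ℂ) : ∃ C : ℝ, 0 ≤ C ∧ ∀ r, 1 ≤ r →
    proximity (fun z => p.eval z) ⊤ r ≤ C * (1 + Real.log r) := by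
  obtain ⟨B, hB0, hB⟩ : ∃ B : ℝ, 1 ≤ B ∧ ∀ z : ℂ, ‖p.eval z‖ ≤ B * (max 1 ‖z‖) ^ p.natDegree := by
    refine ⟨1 + ∑ i ∈ Finset.range (p.natDegree + 1), ‖p.coeff i‖, ?_, fun z => ?_⟩
    · have : 0 ≤ ∑ i ∈ Finset.range (p.natDegree + 1), ‖p.coeff i‖ :=
        Finset.sum_nonneg fun _ _ => norm_nonneg _
      linarith
    · rw [Polynomial.eval_eq_sum_range]
      have h0 : 1 ≤ max 1 ‖z‖ := le_max_left _ _
      refine (norm_sum_le _ _).trans ?_
      have h1 : ∑ i ∈ Finset.range (p.natDegree + 1), ‖p.coeff i * z ^ i‖ ≤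
          ∑ i ∈ Finset.range (p.natDegree + 1), ‖p.coeff i‖ * (max 1 ‖z‖) ^ p.natDegree := by
        apply Finset.sum_le_sum
        intro i hi
        rw [norm_mul, norm_pow]
        apply mul_le_mul_of_nonneg_left _ (norm_nonneg _)
        have h2 : ‖z‖ ^ i ≤ (max 1 ‖z‖) ^ i := pow_le_pow_left₀ (norm_nonneg z) (le_max_right _ _) i
        exact h2.trans (pow_le_pow_right₀ h0 (by
          have := Finset.mem_range.1 hi
          omega))
      rw [← Finset.sum_mul] at h1
      refine h1.trans (mul_le_mul_of_nonneg_right (by linarith) (by positivity))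
  have hlB : 0 ≤ Real.log B := Real.log_nonneg hB0
  refine ⟨Real.log B + p.natDegree, by positivity, fun r hr => ?_⟩
  have hl := Real.log_nonneg hr
  rw [proximity_top]
  apply Real.circleAverage_mono_on_of_le_circle
    (ci_posLog (mero_of_diff (p.differentiable)) r)
  intro z hz
  rw [mem_sphere, dist_zero_right, abs_of_pos (by linarith)] at hz
  have h1 : log⁺ ‖p.eval z‖ ≤ log⁺ (B * r ^ p.natDegree) := by
    apply posLog_le_posLog (norm_nonneg _)
    have := hB z
    rw [hz, max_eq_right hr] at this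
    exact this
  have h2 : 1 ≤ B * r ^ p.natDegree := by
    have := one_le_pow₀ (n := p.natDegree) hr
    nlinarith
  have h3 : log⁺ (B * r ^ p.natDegree) = Real.log B + p.natDegree * Real.log r := by
    rw [posLog_eq_log (by rw [abs_of_pos (by linarith)]; exact h2),
      Real.log_mul (by linarith) (by positivity), Real.log_pow]
  have h4 : (0 : ℝ) ≤ (p.natDegree : ℝ) := Nat.cast_nonneg _
  have h5 : (Real.log B + p.natDegree) * (1 + Real.log r) =
      Real.log B + p.natDegree * Real.log r + (p.natDegree + Real.log B * Real.log r) := by ring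
  have h6 : 0 ≤ (p.natDegree : ℝ) + Real.log B * Real.log r := by positivity
  linarith

end Pool.Agent.W2helper42.RB
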