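import Mathlib
import Pool.Agent.W2helper42.RB.Fn
import Pool.Agent.W2helper42.RB.Dfs
import Pool.Agent.W2helper42.RB.SeqE

/-!
The analytic bound and maps from the punctured line.
-/

set_option autoImplicit false

namespace Pool.Agent.W2helper42.RB

open MeasureTheory Set Filter Topology Metric ValueDistribution
open Asymptotics
open Pool.Agent.H159R3.Exp Pool.Agent.H159R3.NV
open Pool.Agent.N131.SR (Cmp Big exists_big)
open scoped NumberField

variable {K : Type} [Field K] {ι κ : Type} {n : ℕ}

theorem charFn_prox (f : ℂ → ℂ) (r : ℝ) : charFn f r = proximity f ⊤ r := by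
  rw [proximity_top]
  rfl

theorem charFn_nonneg (f : ℂ → ℂ) (r : ℝ) : 0 ≤ charFn f r := by
  rw [charFn_prox]
  exact proximity_nonneg r

theorem charFn_const {f : ℂ → ℂ} {c : ℂ} (h : ∀ z, f z = c) (r : ℝ) :
    charFn f r = Real.posLog ‖c‖ := by
  have h1 : f = fun _ => c := funext h
  rw [h1]
  exact Real.circleAverage_const _ _ _

theorem exists_outside {E : Set ℝ} (hE : volume E < ⊤) (R0 : ℝ) : ∃ r, R0 ≤ r ∧ r ∉ E := by
  by_contra hcon
  push Not at hcon
  have h1 : Ici R0 ⊆ E := fun r hr => hcon r hr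
  have h2 := (measure_mono h1).trans_lt hE
  rw [Real.volume_Ici] at h2
  exact lt_irrefl _ h2

theorem exists_other {g : ℂ → ℂ} (hg : Continuous g) {c z1 : ℂ} (h : g z1 ≠ c) (w : ℂ) :
    ∃ z, z ≠ w ∧ g z ≠ c := by
  by_contra hcon
  push Not at hcon
  have h1 : g = fun _ => c := by
    refine Continuous.ext_on (dense_compl_singleton w) hg continuous_const ?_
    intro z hz
    exact hcon z hz
  exact h (congrFun h1 z1)

theorem laur_exp {φ : ℂ → ℂ} (h : Laur φ) : Differentiable ℂ fun z => φ (Complex.exp z) := by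
  obtain ⟨M, Q, hQ⟩ := h
  have h1 : (fun z => φ (Complex.exp z)) =
      fun z => Q.eval (Complex.exp z) / Complex.exp z ^ M := by
    funext z
    rw [eq_div_iff (pow_ne_zero _ (Complex.exp_ne_zero z))]
    exact hQ _ (Complex.exp_ne_zero z)
  rw [h1]
  exact (Q.differentiable.comp Complex.differentiable_exp).div
    (Complex.differentiable_exp.pow M) fun z => pow_ne_zero _ (Complex.exp_ne_zero z)

/-- the analytic bound implies the condition on maps from the punctured line -/
theorem vert_of_entire (σ : K →+* ℂ) (F : ι → MvPolynomial (Fin n) (𝓞 K))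
    (G : κ → MvPolynomial (Fin n) (𝓞 K)) (A : Finset (Fin n)) (h : EntireBound σ F G A) :
    VertGmIn σ F G A := by
  classical
  rintro v ⟨hv1, hv2, hv3, s1, hs1, hne⟩ s0 hs0
  by_contra hG
  let f : ℂ → Fin n → ℂ := fun z => v (Complex.exp z)
  have hfd : ∀ j, Differentiable ℂ fun z => f z j := fun j => laur_exp (hv1 j)
  obtain ⟨C, E, hE, hb⟩ := h f (differentiable_pi.2 hfd)
    (fun z => hv2 _ (Complex.exp_ne_zero z)) ⟨Complex.log s0, by
      show v (Complex.exp (Complex.log s0)) ∉ _
      rw [Complex.exp_log hs0]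
      exact hG⟩
  have hA : ∀ r, ∑ i ∈ A, charFn (fun z => f z i) r = ∑ i ∈ A, Real.posLog ‖v 1 i‖ := fun r =>
    Finset.sum_congr rfl fun i hi => charFn_const
      (fun z => hv3 i hi _ (Complex.exp_ne_zero z)) r
  obtain ⟨j, hj⟩ := Function.ne_iff.1 hne
  obtain ⟨C1, hC1⟩ := prox_lower (hfd j) ⟨Complex.log s1, by
    show v (Complex.exp (Complex.log s1)) j ≠ v (Complex.exp 0) j
    rw [Complex.exp_log hs1, Complex.exp_zero]
    exact hj⟩
  let B : ℝ := C * (1 + ∑ i ∈ A, Real.posLog ‖v 1 i‖)
  obtain ⟨r, hr, hrE⟩ := exists_outside hE (max 1 (Real.exp (B + C1 + 1)))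
  have hr1 : 1 ≤ r := (le_max_left _ _).trans hr
  have hr2 : Real.exp (B + C1 + 1) ≤ r := (le_max_right _ _).trans hr
  have h1 := hb r hr1 hrE
  rw [hA] at h1
  have h2 : charFn (fun z => f z j) r ≤ ∑ j, charFn (fun z => f z j) r :=
    Finset.single_le_sum (f := fun j => charFn (fun z => f z j) r)
      (fun j _ => charFn_nonneg _ r) (Finset.mem_univ j)
  have h3 := hC1 r hr1
  rw [← charFn_prox] at h3
  have h4 : B + C1 + 1 ≤ Real.log r := (Real.le_log_iff_exp_le (by linarith)).2 hr2
  have h5 : B = C * (1 + ∑ i ∈ A, Real.posLog ‖v 1 i‖) := rfl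
  linarith

theorem laur_poly_shift (p : Polynomial ℂ) (c : ℂ) : Laur fun s : ℂ => p.eval (s + c) := by
  have h1 : (fun s : ℂ => p.eval (s + c)) =
      fun s => (p.comp (Polynomial.X + Polynomial.C c)).eval s := by
    funext s
    simp [Polynomial.eval_comp]
  rw [h1]
  exact Laur.poly _

/-- the condition on maps from the punctured line implies the analytic bound -/
theorem entire_of_vert (σ : K →+* ℂ) [Finite ι] (F : ι → MvPolynomial (Fin n) (𝓞 K))
    (G : κ → MvPolynomial (Fin n) (𝓞 K)) (A U : Finset (Fin n)) (hU : UnitsOn σ F U)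
    (hcov : Covered σ F G A U) (h : VertGmIn σ F G A) : EntireBound σ F G A := by
  classical
  rintro f hf hfF ⟨zG, hzG⟩
  by_contra hcon
  push Not at hcon
  have hfj : ∀ j, Differentiable ℂ fun z => f z j := differentiable_pi.1 hf
  let TA : ℝ → ℝ := fun r => ∑ i ∈ A, charFn (fun z => f z i) r
  let T : ℝ → ℝ := fun r => ∑ j, charFn (fun z => f z j) r
  have hTA0 : ∀ r, 0 ≤ TA r := fun r => Finset.sum_nonneg fun i _ => charFn_nonneg _ r
  have hT0 : ∀ r, 0 ≤ T r := fun r => Finset.sum_nonneg fun i _ => charFn_nonneg _ r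
  have hTj : ∀ j r, charFn (fun z => f z j) r ≤ T r := fun j r =>
    Finset.single_le_sum (f := fun j => charFn (fun z => f z j) r)
      (fun j _ => charFn_nonneg _ r) (Finset.mem_univ j)
  have hTAi : ∀ i ∈ A, ∀ r, charFn (fun z => f z i) r ≤ TA r := fun i hi r =>
    Finset.single_le_sum (f := fun i => charFn (fun z => f z i) r)
      (fun i _ => charFn_nonneg _ r) hi
  have hvol : ∀ C : ℝ, volume {r | 1 ≤ r ∧ C * (1 + TA r) < T r} = ⊤ := by
    intro C
    by_contra h1
    obtain ⟨r, h2, h3, h4⟩ := hcon C _ (lt_top_iff_ne_top.2 h1)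
    exact h3 ⟨h2, h4⟩
  have hfalse : ∀ C : ℝ, (∀ r, 1 ≤ r → T r ≤ C * (1 + TA r)) → False := by
    intro C hC
    have h1 : {r | 1 ≤ r ∧ C * (1 + TA r) < T r} = ∅ := by
      ext r
      simp only [mem_ofPred_eq, mem_empty_iff_false, iff_false, not_and, not_lt]
      exact hC r
    have h2 := hvol C
    rw [h1, measure_empty] at h2
    exact ENNReal.zero_ne_top h2
  by_cases hpoly : ∀ j, ∃ p : Polynomial ℂ, ∀ z, f z j = p.eval z
  · choose p hp using hpoly
    by_cases hAc : ∀ i ∈ A, ∀ z, f z i = f 0 i
    · by_cases hc : ∀ z, f z = f zG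
      · -- the curve is constant
        refine hfalse (T 1) fun r hr => ?_
        have h1 : T r = T 1 := Finset.sum_congr rfl fun j _ => by
          rw [charFn_const (c := f zG j) (fun z => by rw [hc z]) r,
            charFn_const (c := f zG j) (fun z => by rw [hc z]) 1]
        rw [h1]
        have := mul_nonneg (hT0 1) (hTA0 r)
        linarith
      · -- a polynomial curve
        push Not at hc
        obtain ⟨z1, hz1⟩ := hc
        obtain ⟨j, hj⟩ := Function.ne_iff.1 hz1
        obtain ⟨z2, hz2, hz3⟩ := exists_other (hfj j).continuous hj (zG - 1)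
        have h1 : IsVertGm σ F A fun s => f (s + (zG - 1)) := by
          refine ⟨fun j => ?_, fun s _ => hfF _, fun i hi s _ => ?_, z2 - (zG - 1),
            sub_ne_zero.2 hz2, fun h2 => hz3 ?_⟩
          · have h2 : (fun s => f (s + (zG - 1)) j) = fun s => (p j).eval (s + (zG - 1)) :=
              funext fun s => hp j _
            rw [h2]
            exact laur_poly_shift (p j) _
          · show f _ i = f _ i
            rw [hAc i hi, hAc i hi (1 + (zG - 1))]
          · have h3 := congrFun h2 j
            have h4 : z2 - (zG - 1) + (zG - 1) = z2 := by ring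
            have h5 : 1 + (zG - 1) = zG := by ring
            simp only [h4, h5] at h3
            exact h3
        have h2 := h _ h1 1 one_ne_zero
        have h5 : 1 + (zG - 1) = zG := by ring
        simp only [h5] at h2
        exact hzG h2
    · -- polynomials, not constant along `A`
      push Not at hAc
      obtain ⟨i, hi, z1, hz1⟩ := hAc
      obtain ⟨C1, hC1⟩ := prox_lower (hfj i) ⟨z1, hz1⟩
      have h1 : ∀ j, ∃ C : ℝ, 0 ≤ C ∧ ∀ r, 1 ≤ r →
          charFn (fun z => f z j) r ≤ C * (1 + Real.log r) := by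
        intro j
        obtain ⟨C, hC0, hC⟩ := prox_poly (p j)
        refine ⟨C, hC0, fun r hr => ?_⟩
        have h2 : (fun z => f z j) = fun z => (p j).eval z := funext fun z => hp j z
        rw [charFn_prox, h2]
        exact hC r hr
      choose C2 hC20 hC2 using h1
      have hS : 0 ≤ ∑ j, C2 j := Finset.sum_nonneg fun j _ => hC20 j
      refine hfalse ((∑ j, C2 j) * (1 + |C1|)) fun r hr => ?_
      have h3 : T r ≤ (∑ j, C2 j) * (1 + Real.log r) := by
        rw [Finset.sum_mul]
        exact Finset.sum_le_sum fun j _ => hC2 j r hr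
      have h4 : Real.log r ≤ C1 + TA r := by
        have h5 := hC1 r hr
        rw [← charFn_prox] at h5
        have h6 := hTAi i hi r
        linarith
      refine h3.trans ?_
      rw [mul_assoc]
      refine mul_le_mul_of_nonneg_left ?_ hS
      have h7 := le_abs_self C1
      have h8 := mul_nonneg (abs_nonneg C1) (hTA0 r)
      have h9 : (1 + |C1|) * (1 + TA r) = 1 + |C1| + TA r + |C1| * TA r := by ring
      linarith
  · -- a transcendental coordinate
    push Not at hpoly
    obtain ⟨j0, hj0⟩ := hpoly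
    obtain ⟨L, hL, hLP⟩ := exists_big (P := fun m r => (m : ℝ) * (1 + TA r) < T r) (by
      intro m m' r hmm h1
      have e1 : (m : ℝ) ≤ m' := by exact_mod_cast hmm
      have e2 : 0 ≤ 1 + TA r := by
        have := hTA0 r
        linarith
      exact lt_of_le_of_lt (mul_le_mul_of_nonneg_right e1 e2) h1) fun m => hvol m
    have hlog : Real.log =o[L] T := by
      rw [isLittleO_iff]
      intro c hc
      have h1 : ∀ᶠ r : ℝ in L, 1 / c * (1 + Real.log r) < proximity (fun z => f z j0) ⊤ r :=
        hL.top (log_small (hfj j0) (by push Not; exact hj0) (1 / c))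
      have h2 : ∀ᶠ r : ℝ in L, 1 ≤ r := hL.top (eventually_ge_atTop 1)
      filter_upwards [h1, h2] with r h3 h4
      have h5 := Real.log_nonneg h4
      rw [Real.norm_eq_abs, Real.norm_eq_abs, abs_of_nonneg h5, abs_of_nonneg (hT0 r)]
      rw [← charFn_prox] at h3
      have h6 := h3.trans_le (hTj j0 r)
      rw [div_mul_eq_mul_div, one_mul, div_lt_iff₀ hc] at h6
      linarith
    have H : Cmp L T := ⟨hL, hlog⟩
    have hA : ∀ i ∈ A, proximity (fun z => f z i) ⊤ =o[L] T := by
      intro i hi
      rw [isLittleO_iff]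
      intro c hc
      obtain ⟨m, hm⟩ := exists_nat_gt (1 / c)
      filter_upwards [hLP m] with r h1
      rw [← charFn_prox, Real.norm_eq_abs, Real.norm_eq_abs, abs_of_nonneg (charFn_nonneg _ r),
        abs_of_nonneg (hT0 r)]
      have h2 := hTAi i hi r
      have h3 := hTA0 r
      have h4 : 1 / c * (1 + TA r) ≤ m * (1 + TA r) :=
        mul_le_mul_of_nonneg_right hm.le (by linarith)
      have h5 := h4.trans_lt h1
      rw [div_mul_eq_mul_div, one_mul, div_lt_iff₀ hc] at h5
      linarith
    let φ : 𝓞 K →+* ℂ := σ.comp (algebraMap (𝓞 K) K)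
    have h1 := seqE H hT0 (fun j z => f z j) hfj (fun r => Finset.sum_congr rfl fun j _ =>
      charFn_prox _ r) U A (fun l => MvPolynomial.map φ (F l))
      (fun l z => by
        rw [MvPolynomial.eval_map]
        exact hfF z l)
      (fun i hi z => hU _ (hfF z) i hi) hA (Ultrafilter.of (codiscrete ℂ)) (Ultrafilter.of_le _)
    obtain ⟨l, hl⟩ : ∃ l, MvPolynomial.eval₂ φ (f zG) (G l) ≠ 0 := by
      by_contra hcon2
      push Not at hcon2
      exact hzG hcon2
    have hgd : Differentiable ℂ fun z => MvPolynomial.eval₂ φ (f z) (G l) := by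
      have h2 : (fun z => MvPolynomial.eval₂ φ (f z) (G l)) =
          fun z => MvPolynomial.eval (f z) (MvPolynomial.map φ (G l)) :=
        funext fun z => (MvPolynomial.eval_map _ _ _).symm
      rw [h2]
      exact differentiable_eval hf _
    have h2 : ∀ᶠ z in codiscrete ℂ, MvPolynomial.eval₂ φ (f z) (G l) ≠ 0 :=
      AnalyticOnNhd.preimage_zero_mem_codiscrete (fun z _ => hgd.analyticAt z) hl
    obtain ⟨z, hz1, hz2⟩ := (h1.and ((Ultrafilter.of_le (codiscrete ℂ)) h2)).exists
    have hzG' : f z ∉ CPts σ G := fun h3 => hz2 (h3 l)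
    rcases hz1 with ⟨z', h3, h4, h5⟩ | ⟨v, h3, h4, h5, h6, j, h7⟩
    · obtain ⟨v, hv, hv1⟩ := hcov (f z) (hfF z) hzG' z' (fun l => by
        have := h3 l
        rw [MvPolynomial.eval_map] at this
        exact this) h4 h5
      have h6 := h v hv 1 one_ne_zero
      rw [hv1] at h6
      exact hzG' h6
    · have hv : IsVertGm σ F A v := by
        refine ⟨h3, fun s hs l => ?_, fun i hi s hs => ?_, 2, two_ne_zero, fun h8 => h7 ?_⟩
        · have := h4 l s hs
          rw [MvPolynomial.eval_map] at this
          exact this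
        · rw [h5 i hi s hs, h6]
        · rw [h8]
      have h8 := h v hv 1 one_ne_zero
      rw [h6] at h8
      exact hzG' h8

end Pool.Agent.W2helper42.RB
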