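import Mathlib
import Pool.Agent.W2helper42.RB.EntA
import Pool.Agent.W2helper42.RB.ArA
import Pool.Agent.W2helper42.RB.ArB

/-!
The equivalence, and the case without a base.
-/

set_option autoImplicit false

namespace Pool.Agent.W2helper42.RB

open MvPolynomial IsDedekindDomain
open Pool.Agent.H159R3.Exp
open Pool.Agent.W235.RM (GmCurvesIn EntireCurvesIn)
open scoped NumberField

variable {K : Type} [Field K] {ι κ : Type} {n : ℕ}

theorem tfae [NumberField K] (σ : K →+* ℂ) [Finite ι] (F : ι → MvPolynomial (Fin n) (𝓞 K))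
    (G : κ → MvPolynomial (Fin n) (𝓞 K)) (A U : Finset (Fin n)) (hU : UnitsOn σ F U)
    (hcov : Covered σ F G A U) :
    List.TFAE [IntegralBound F G A, EntireBound σ F G A, VertGmIn σ F G A] := by
  tfae_have 1 → 3 := vert_of_integral σ F G A
  tfae_have 2 → 3 := vert_of_entire σ F G A
  tfae_have 3 → 1 := integral_of_vert σ F G A U hU hcov
  tfae_have 3 → 2 := entire_of_vert σ F G A U hU hcov
  tfae_finish

theorem gm_empty (σ : K →+* ℂ) (F : ι → MvPolynomial (Fin n) (𝓞 K))
    (G : κ → MvPolynomial (Fin n) (𝓞 K)) : VertGmIn σ F G ∅ ↔ GmCurvesIn σ F G := by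
  constructor
  · intro h v hv hF hne l t ht
    have h1 : IsVertGm σ F ∅ v := by
      refine ⟨hv, fun s hs l => hF l s hs, fun i hi => absurd hi (Finset.notMem_empty i), ?_⟩
      by_contra hcon
      push Not at hcon
      obtain ⟨t, s, ht, hs, hts⟩ := hne
      exact hts ((hcon t ht).trans (hcon s hs).symm)
    exact h v h1 t ht l
  · rintro h v ⟨h1, h2, -, s, hs, h3⟩ t ht l
    exact h v h1 (fun l t ht => h2 t ht l) ⟨s, 1, hs, one_ne_zero, h3⟩ l t ht

theorem integral_empty (F : ι → MvPolynomial (Fin n) (𝓞 K))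
    (G : κ → MvPolynomial (Fin n) (𝓞 K)) : IntegralBound F G ∅ ↔ FinitelyManyIntegral F G := by
  constructor
  · intro h L _ _ _ S hS
    obtain ⟨C, hC⟩ := h L S hS
    have h1 : {x : Fin n → L | ∀ i, x i ∈ {c : L | Height.logHeight₁ c ≤ C}}.Finite :=
      Set.Finite.pi' fun _ => NumberField.finite_setOfPred_logHeight₁_le (K := L) C
    refine h1.subset fun x hx i => ?_
    have h2 := hC x hx
    rw [Finset.sum_empty, add_zero, mul_one] at h2
    have h3 : Height.logHeight₁ (x i) ≤ ∑ j, Height.logHeight₁ (x j) :=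
      Finset.single_le_sum (f := fun j => Height.logHeight₁ (x j))
        (fun j _ => Height.zero_le_logHeight₁ _) (Finset.mem_univ i)
    exact h3.trans h2
  · intro h L _ _ _ S hS
    have h1 := h L S hS
    obtain ⟨C, hC⟩ := (h1.image fun x => ∑ j, Height.logHeight₁ (x j)).bddAbove
    refine ⟨C, fun x hx => ?_⟩
    rw [Finset.sum_empty, add_zero, mul_one]
    exact hC ⟨x, hx, rfl⟩

theorem entire_empty (σ : K →+* ℂ) (F : ι → MvPolynomial (Fin n) (𝓞 K))
    (G : κ → MvPolynomial (Fin n) (𝓞 K)) : EntireBound σ F G ∅ ↔ EntireCurvesIn σ F G := by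
  constructor
  · intro h f hf hF hne z l
    by_contra hG
    obtain ⟨C, E, hE, hb⟩ := h f hf (fun z l => hF z l) ⟨z, fun hz => hG (hz l)⟩
    obtain ⟨a, b, hab⟩ := hne
    obtain ⟨j, hj⟩ := Function.ne_iff.1 hab
    have hfj : Differentiable ℂ fun z => f z j := differentiable_pi.1 hf j
    have hz0 : ∃ z, f z j ≠ f 0 j := by
      by_contra hcon
      push Not at hcon
      exact hj ((hcon a).trans (hcon b).symm)
    obtain ⟨C1, hC1⟩ := prox_lower hfj hz0
    obtain ⟨r, hr, hrE⟩ := exists_outside hE (max 1 (Real.exp (C + C1 + 1)))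
    have hr1 : 1 ≤ r := (le_max_left _ _).trans hr
    have hr2 : Real.exp (C + C1 + 1) ≤ r := (le_max_right _ _).trans hr
    have h1 := hb r hr1 hrE
    rw [Finset.sum_empty, add_zero, mul_one] at h1
    have h2 : charFn (fun z => f z j) r ≤ ∑ j, charFn (fun z => f z j) r :=
      Finset.single_le_sum (f := fun j => charFn (fun z => f z j) r)
        (fun j _ => charFn_nonneg _ r) (Finset.mem_univ j)
    have h3 := hC1 r hr1
    rw [← charFn_prox] at h3
    have h4 : C + C1 + 1 ≤ Real.log r := (Real.le_log_iff_exp_le (by linarith)).2 hr2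
    linarith
  · rintro h f hf hF ⟨z0, hz0⟩
    have hc : ∀ z, f z = f 0 := by
      by_contra hcon
      push Not at hcon
      obtain ⟨z, hz⟩ := hcon
      exact hz0 fun l => h f hf (fun z l => hF z l) ⟨z, 0, hz⟩ z0 l
    refine ⟨∑ j, charFn (fun z => f z j) 1, ∅, by simp, fun r _ _ => ?_⟩
    rw [Finset.sum_empty, add_zero, mul_one]
    refine le_of_eq (Finset.sum_congr rfl fun j _ => ?_)
    rw [charFn_const (c := f 0 j) (fun z => by rw [hc z]) r,
      charFn_const (c := f 0 j) (fun z => by rw [hc z]) 1]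

/-- the equivalence without a base -/
theorem blv [NumberField K] (σ : K →+* ℂ) [Finite ι] (F : ι → MvPolynomial (Fin n) (𝓞 K))
    (G : κ → MvPolynomial (Fin n) (𝓞 K)) (U : Finset (Fin n)) (hU : UnitsOn σ F U)
    (hcov : Covered σ F G ∅ U) :
    List.TFAE [FinitelyManyIntegral F G, EntireCurvesIn σ F G, GmCurvesIn σ F G] := by
  have h := tfae σ F G ∅ U hU hcov
  rw [propext (integral_empty F G), propext (entire_empty σ F G), propext (gm_empty σ F G)] at h
  exact h

end Pool.Agent.W2helper42.RB
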